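import Pool.Agent.H4.FV.OddU

namespace Pool.Agent.H4.FV.CpCard
open Pool.Agent.H4.FV.Odd


/-- If a type has at most `n` independent elements (no injection from `Fin (n+1)`), it is finite. -/
theorem finite_of_no_inj (D : Type) (n : ℕ) (h : ¬ ∃ f : Fin n → D, Function.Injective f) :
    Finite D := by
  by_contra hD
  rw [not_finite_iff_infinite] at hD
  have := hD
  exact h ⟨fun i => Infinite.natEmbedding D i.val, fun i j hij =>
    Fin.ext ((Infinite.natEmbedding D).injective hij)⟩

theorem card : S_card := by
  intro D D' _ _ h
  rcases finite_or_infinite D with hD | hD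
  · rcases finite_or_infinite D' with hD' | hD'
    · -- both finite
      have := Fintype.ofFinite D
      have := Fintype.ofFinite D'
      have key : ∀ (A : Type) [Fintype A] (n : ℕ), (∃ f : Fin n → A, Function.Injective f) ↔
          n ≤ Fintype.card A := by
        intro A _ n
        constructor
        · rintro ⟨f, hf⟩
          have := Fintype.card_le_of_injective f hf
          simpa using this
        · intro hn
          refine ⟨fun i => (Fintype.equivFin A).symm (Fin.castLE hn i), ?_⟩
          intro i j hij
          exact Fin.castLE_injective hn ((Fintype.equivFin A).symm.injective hij)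
      have h1 : Fintype.card D ≤ Fintype.card D' :=
        (key D' _).1 ((h _).1 ((key D _).2 le_rfl))
      have h2 : Fintype.card D' ≤ Fintype.card D :=
        (key D _).1 ((h _).2 ((key D' _).2 le_rfl))
      exact ⟨Fintype.equivOfCardEq (le_antisymm h1 h2)⟩
    · exfalso
      have := Fintype.ofFinite D
      obtain ⟨f, hf⟩ := (h (Fintype.card D + 1)).2
        ⟨fun i => Infinite.natEmbedding D' i.val, fun i j hij =>
          Fin.ext ((Infinite.natEmbedding D').injective hij)⟩
      have := Fintype.card_le_of_injective f hf
      simp at this
  · rcases finite_or_infinite D' with hD' | hD'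
    · exfalso
      have := Fintype.ofFinite D'
      obtain ⟨f, hf⟩ := (h (Fintype.card D' + 1)).1
        ⟨fun i => Infinite.natEmbedding D i.val, fun i j hij =>
          Fin.ext ((Infinite.natEmbedding D).injective hij)⟩
      have := Fintype.card_le_of_injective f hf
      simp at this
    · obtain ⟨e⟩ := nonempty_denumerable D
      obtain ⟨e'⟩ := nonempty_denumerable D'
      exact ⟨(Denumerable.eqv D).trans (Denumerable.eqv D').symm⟩

end Pool.Agent.H4.FV.CpCard

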