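import Pool.Agent.H4.VG.Fo4

set_option autoImplicit false
set_option linter.unusedSectionVars false
set_option linter.unusedVariables false

/-! Classes of operations to whose first-order theories Vaught's conjecture reduces: the engine. -/

namespace Pool.Agent.H4.FV

open FirstOrder FirstOrder.Language
open Pool.Agent.W889.FO
open Pool.Agent.TH686.FO
open Pool.Agent.W889.VC (BP)
open Pool.Agent.W889.FO.StE (LG gd siso_gd fd_gd)
open Pool.Agent.H4.VG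
open Pool.Agent.H4.VG.Fun (mkR mkR_W D_mkR red_fun)

/-- Vaught's conjecture for all theories of graphs follows from Vaught's conjecture for the
complete theories of binary operations whose models on `ℕ` are in `K`. -/
def Red (K : (ℕ → ℕ → ℕ) → Prop) : Prop :=
  (∀ T : LM.Theory, T.IsComplete →
    (∀ M : LM.Structure ℕ, @Theory.Model LM ℕ M T → K (op M)) → VaughtF LM T) →
  ∀ T : LG.Theory, Vaught LG T

theorem Red.mono {K K' : (ℕ → ℕ → ℕ) → Prop} (h : Red K) (hK : ∀ μ, K μ → K' μ) : Red K' :=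
  fun hV => h fun T hT hM => hV T hT fun M hm => hK _ (hM M hm)

/-- the interpretation -/
noncomputable def eI (FA : (ℕ → ℕ → ℕ) → Prop) (dm : (ℕ → ℕ → ℕ) → ℕ → Prop)
    (rl : (ℕ → ℕ → ℕ) → ℕ → ℕ → Prop)
    (ax : Ax (fun S : LR.Structure ℕ => St0.W S ∧ FA (ml S)))
    (fdm : FD (St0.W (L := LM)) (fun S (v : Unit → ℕ) => dm (ml S) (v ())))
    (frl : FD (St0.W (L := LM)) (fun S (v : Fin 2 → ℕ) => rl (ml S) (v 0) (v 1)))
    (inf : ∀ μ, FA μ → ∀ N, ∃ u, N ≤ u ∧ dm μ u) : Itp LG LR where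
  W := fun S => St0.W S ∧ FA (ml S)
  axW := ax
  dom := fun S u => dm (ml S) u
  rel := fun {n} Q => match n, Q with
    | _, FirstOrder.Language.graphRel.adj => fun S v => rl (ml S) (v 0) (v 1)
  fdom := fdm.mono fun S h => h.1
  frel := fun {n} Q => match n, Q with
    | _, FirstOrder.Language.graphRel.adj => frl.mono fun S h => h.1
  inf := fun S h N => inf _ h.2 N

/-- The engine, with an invariant `j`. `FA` is the class of the coded operations, the graph is the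
relation `rl` on the set `dm`. -/
theorem engineJ {K : (ℕ → ℕ → ℕ) → Prop} (FA : (ℕ → ℕ → ℕ) → Prop)
    (dm : (ℕ → ℕ → ℕ) → ℕ → Prop) (rl : (ℕ → ℕ → ℕ) → ℕ → ℕ → Prop)
    {J : Type} [Countable J] (j : (ℕ → ℕ → ℕ) → J)
    (ax : Ax (fun S : LR.Structure ℕ => St0.W S ∧ FA (ml S)))
    (fdm : FD (St0.W (L := LM)) (fun S (v : Unit → ℕ) => dm (ml S) (v ())))
    (frl : FD (St0.W (L := LM)) (fun S (v : Fin 2 → ℕ) => rl (ml S) (v 0) (v 1)))
    (inf : ∀ μ, FA μ → ∀ N, ∃ u, N ≤ u ∧ dm μ u)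
    (up : ∀ μ μ', FA μ → FA μ' → ∀ τ : {x // dm μ x} ≃ {x // dm μ' x},
      (∀ x y : {x // dm μ x}, rl μ' (τ x) (τ y) ↔ rl μ x y) → j μ = j μ' →
      ∃ σ : Equiv.Perm ℕ, ∀ a b, σ (μ a b) = μ' (σ a) (σ b))
    (bpj : ∀ f : (ℕ → Bool) → LR.Structure ℕ, (∀ (n : ℕ) (R : LR.Relations n) (a : Fin n → ℕ),
      BP (fun y => @Structure.RelMap LR ℕ (f y) n R a)) → (∀ y, St0.W (f y) ∧ FA (ml (f y))) →
      ∀ c, BP (fun y => j (ml (f y)) = c))
    (ex : ∀ M : LG.Structure ℕ, StD.W 0 M → ∃ μ, FA μ ∧ ∃ π : ℕ ≃ {x // dm μ x},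
      ∀ u v, rl μ (π u) (π v) ↔ gd M u v)
    (hK : ∀ μ, FA μ → K μ) : Red K := by
  intro h T
  have := StD.countable_LG
  refine to_W 0 (fun T1 hT1 => ?_) T
  let I := eI FA dm rl ax fdm frl inf
  have hc : Itp.Cnt I J (fun S => j (ml S)) := by
    refine ⟨fun S S' hS hS' hi hj => ?_, fun f hb hW c => bpj f hb hW c⟩
    obtain ⟨π, hπ⟩ := (Itp.D_iso_iff (I := I) hS hS').1 hi
    obtain ⟨σ, hσ⟩ := up (ml S) (ml S') hS.2 hS'.2 π (fun x y =>
      (hπ FirstOrder.Language.graphRel.adj ![x, y]).symm) hj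
    exact siso_ml hS.1 hS'.1 σ hσ
  refine Itp.transfer I hc T1 (fun M hM => ?_) fun T' hT' => ?_
  · obtain ⟨μ, h1, π, h2⟩ := ex M (hT1 M hM)
    have hS : ml (mkR (mkM μ)) = μ := by rw [ml_mkR, op_mkM]
    refine ⟨mkR (mkM μ), ⟨mkR_W _, by rw [hS]; exact h1⟩, ?_⟩
    have hd : ∀ u, dm μ u ↔ I.dom (mkR (mkM μ)) u := fun u => by
      show dm μ u ↔ dm (ml (mkR (mkM μ))) u
      rw [hS]
    refine Itp.D_iso (I := I) ⟨mkR_W _, by rw [hS]; exact h1⟩
      (π.trans (Equiv.subtypeEquivRight hd)) fun {n} Q u => ?_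
    cases Q with
    | adj =>
      show _ ↔ rl (ml (mkR (mkM μ))) (π (u 0)) (π (u 1))
      rw [hS, h2]
      unfold gd
      have e : ![u 0, u 1] = u := by
        funext m
        fin_cases m <;> rfl
      rw [e]
  · refine red_fun (L := LM) (P := fun S => St0.W S ∧ FA (ml S)) (Q := fun M => K (op M))
      (fun S hS => hS.1) (fun M hM => ?_) h T' fun S hS => (hT' S hS).1
    have h1 := hM.2
    rw [ml_mkR] at h1
    exact hK _ h1

/-- The engine without an invariant. -/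
theorem engine {K : (ℕ → ℕ → ℕ) → Prop} (FA : (ℕ → ℕ → ℕ) → Prop)
    (dm : (ℕ → ℕ → ℕ) → ℕ → Prop) (rl : (ℕ → ℕ → ℕ) → ℕ → ℕ → Prop)
    (ax : Ax (fun S : LR.Structure ℕ => St0.W S ∧ FA (ml S)))
    (fdm : FD (St0.W (L := LM)) (fun S (v : Unit → ℕ) => dm (ml S) (v ())))
    (frl : FD (St0.W (L := LM)) (fun S (v : Fin 2 → ℕ) => rl (ml S) (v 0) (v 1)))
    (inf : ∀ μ, FA μ → ∀ N, ∃ u, N ≤ u ∧ dm μ u)
    (up : ∀ μ μ', FA μ → FA μ' → ∀ τ : {x // dm μ x} ≃ {x // dm μ' x},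
      (∀ x y : {x // dm μ x}, rl μ' (τ x) (τ y) ↔ rl μ x y) →
      ∃ σ : Equiv.Perm ℕ, ∀ a b, σ (μ a b) = μ' (σ a) (σ b))
    (ex : ∀ M : LG.Structure ℕ, StD.W 0 M → ∃ μ, FA μ ∧ ∃ π : ℕ ≃ {x // dm μ x},
      ∀ u v, rl μ (π u) (π v) ↔ gd M u v)
    (hK : ∀ μ, FA μ → K μ) : Red K :=
  engineJ (J := Unit) FA dm rl (fun _ => ()) ax fdm frl inf
    (fun μ μ' h h' τ hτ _ => up μ μ' h h' τ hτ) (fun _ _ _ _ => BP.const _) ex hK

end Pool.Agent.H4.FV
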