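import Pool.Agent.H4.FV.Eng

set_option autoImplicit false
set_option linter.unusedSectionVars false
set_option linter.unusedVariables false

/-! The engine with a definable equivalence relation. -/

namespace Pool.Agent.H4.FV

open FirstOrder FirstOrder.Language
open Pool.Agent.W889.FO
open Pool.Agent.TH686.FO
open Pool.Agent.W889.VC (BP)

open Pool.Agent.W889.FO.StE (LG gd siso_gd fd_gd)
open Pool.Agent.H4.VG
open Pool.Agent.H4.VG.Fun (mkR mkR_W D_mkR red_fun)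

/-- the interpretation -/
noncomputable def eQ (FA : (ℕ → ℕ → ℕ) → Prop) (dm : (ℕ → ℕ → ℕ) → ℕ → Prop)
    (ev rl : (ℕ → ℕ → ℕ) → ℕ → ℕ → Prop)
    (ax : Ax (fun S : LR.Structure ℕ => St0.W S ∧ FA (ml S)))
    (fdm : FD (St0.W (L := LM)) (fun S (v : Unit → ℕ) => dm (ml S) (v ())))
    (fev : FD (St0.W (L := LM)) (fun S (v : Fin 2 → ℕ) => ev (ml S) (v 0) (v 1)))
    (frl : FD (St0.W (L := LM)) (fun S (v : Fin 2 → ℕ) => rl (ml S) (v 0) (v 1)))
    (refl : ∀ μ, FA μ → ∀ u, dm μ u → ev μ u u)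
    (symm : ∀ μ, FA μ → ∀ u v, dm μ u → dm μ v → ev μ u v → ev μ v u)
    (trans : ∀ μ, FA μ → ∀ u v w, dm μ u → dm μ v → dm μ w → ev μ u v → ev μ v w → ev μ u w)
    (cong : ∀ μ, FA μ → ∀ u v u' v', dm μ u → dm μ v → dm μ u' → dm μ v' → ev μ u u' →
      ev μ v v' → rl μ u v → rl μ u' v')
    (inf : ∀ μ, FA μ → ∀ n : ℕ, ∃ v : Fin n → ℕ, (∀ i, dm μ (v i)) ∧
      ∀ i j, i ≠ j → ¬ ev μ (v i) (v j)) : Itq LG LR where
  W := fun S => St0.W S ∧ FA (ml S)
  axW := ax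
  dom := fun S u => dm (ml S) u
  eqv := fun S u v => ev (ml S) u v
  rel := fun {n} Q => match n, Q with
    | _, FirstOrder.Language.graphRel.adj => fun S v => rl (ml S) (v 0) (v 1)
  fdom := fdm.mono fun S h => h.1
  feqv := fev.mono fun S h => h.1
  frel := fun {n} Q => match n, Q with
    | _, FirstOrder.Language.graphRel.adj => frl.mono fun S h => h.1
  refl := fun S h u hu => refl _ h.2 u hu
  symm := fun S h u v hu hv => symm _ h.2 u v hu hv
  trans := fun S h u v w hu hv hw => trans _ h.2 u v w hu hv hw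
  cong := fun S h {n} Q => match n, Q with
    | _, FirstOrder.Language.graphRel.adj => fun u v hu hv hq hr =>
      cong _ h.2 _ _ _ _ (hu 0) (hu 1) (hv 0) (hv 1) (hq 0) (hq 1) hr
  inf := fun S h N => by
    classical
    by_contra hcon
    push Not at hcon
    have hrep : ∀ x, dm (ml S) x → ∃ u, u < N ∧ dm (ml S) u ∧ ev (ml S) u x := by
      intro x hx
      have hex : ∃ u, dm (ml S) u ∧ ev (ml S) u x := ⟨x, hx, refl _ h.2 x hx⟩
      obtain ⟨h1, h2⟩ := Nat.find_spec hex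
      refine ⟨Nat.find hex, ?_, h1, h2⟩
      by_contra hlt
      obtain ⟨u', h3, h4, h5⟩ := hcon (Nat.find hex) (not_lt.1 hlt) h1
      exact Nat.find_min hex h3 ⟨h4, trans _ h.2 _ _ _ h4 h1 hx h5 h2⟩
    obtain ⟨w, h1, h2⟩ := inf _ h.2 (N + 1)
    choose u hu1 hu2 hu3 using fun i => hrep (w i) (h1 i)
    have h5 : Function.Injective fun i => (⟨u i, hu1 i⟩ : Fin N) := by
      intro i i' hii
      have h6 : u i = u i' := congrArg Fin.val hii
      by_contra hne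
      refine h2 i i' hne (trans _ h.2 _ _ _ (h1 i) (hu2 i) (h1 i')
        (symm _ h.2 _ _ (hu2 i) (h1 i) (hu3 i)) ?_)
      rw [h6]
      exact hu3 i'
    have := Fintype.card_le_of_injective _ h5
    simp at this

/-- The engine, with an invariant `j` and a definable equivalence relation. -/
theorem engineQ {K : (ℕ → ℕ → ℕ) → Prop} (FA : (ℕ → ℕ → ℕ) → Prop)
    (dm : (ℕ → ℕ → ℕ) → ℕ → Prop) (ev rl : (ℕ → ℕ → ℕ) → ℕ → ℕ → Prop)
    {J : Type} [Countable J] (j : (ℕ → ℕ → ℕ) → J)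
    (ax : Ax (fun S : LR.Structure ℕ => St0.W S ∧ FA (ml S)))
    (fdm : FD (St0.W (L := LM)) (fun S (v : Unit → ℕ) => dm (ml S) (v ())))
    (fev : FD (St0.W (L := LM)) (fun S (v : Fin 2 → ℕ) => ev (ml S) (v 0) (v 1)))
    (frl : FD (St0.W (L := LM)) (fun S (v : Fin 2 → ℕ) => rl (ml S) (v 0) (v 1)))
    (refl : ∀ μ, FA μ → ∀ u, dm μ u → ev μ u u)
    (symm : ∀ μ, FA μ → ∀ u v, dm μ u → dm μ v → ev μ u v → ev μ v u)
    (trans : ∀ μ, FA μ → ∀ u v w, dm μ u → dm μ v → dm μ w → ev μ u v → ev μ v w → ev μ u w)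
    (cong : ∀ μ, FA μ → ∀ u v u' v', dm μ u → dm μ v → dm μ u' → dm μ v' → ev μ u u' →
      ev μ v v' → rl μ u v → rl μ u' v')
    (inf : ∀ μ, FA μ → ∀ n : ℕ, ∃ v : Fin n → ℕ, (∀ i, dm μ (v i)) ∧
      ∀ i j, i ≠ j → ¬ ev μ (v i) (v j))
    (up : ∀ μ μ', FA μ → FA μ' → ∀ τ : ℕ → ℕ, (∀ x, dm μ x → dm μ' (τ x)) →
      (∀ x y, dm μ x → dm μ y → (ev μ' (τ x) (τ y) ↔ ev μ x y)) →
      (∀ y, dm μ' y → ∃ x, dm μ x ∧ ev μ' (τ x) y) →
      (∀ x y, dm μ x → dm μ y → (rl μ' (τ x) (τ y) ↔ rl μ x y)) → j μ = j μ' →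
      ∃ σ : Equiv.Perm ℕ, ∀ a b, σ (μ a b) = μ' (σ a) (σ b))
    (bpj : ∀ f : (ℕ → Bool) → LR.Structure ℕ, (∀ (n : ℕ) (R : LR.Relations n) (a : Fin n → ℕ),
      BP (fun y => @Structure.RelMap LR ℕ (f y) n R a)) → (∀ y, St0.W (f y) ∧ FA (ml (f y))) →
      ∀ c, BP (fun y => j (ml (f y)) = c))
    (ex : ∀ M : LG.Structure ℕ, StD.W 0 M → ∃ μ, FA μ ∧ ∃ π : ℕ → ℕ, (∀ v, dm μ (π v)) ∧
      (∀ v w, ev μ (π v) (π w) ↔ v = w) ∧ (∀ x, dm μ x → ∃ v, ev μ (π v) x) ∧
      ∀ u v, rl μ (π u) (π v) ↔ gd M u v)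
    (hK : ∀ μ, FA μ → K μ) : Red K := by
  intro h T
  have := StD.countable_LG
  refine to_W 0 (fun T1 hT1 => ?_) T
  let I := eQ FA dm ev rl ax fdm fev frl refl symm trans cong inf
  have hc : CntQ I J (fun S => j (ml S)) := by
    refine ⟨fun S S' hS hS' hi hj => ?_, fun f hb hW c => bpj f hb hW c⟩
    obtain ⟨e⟩ := hi
    let t : Equiv.Perm ℕ := @FirstOrder.Language.Equiv.toEquiv LG ℕ ℕ (I.D S) (I.D S') e
    have h1 : ∀ x, ∃ y, dm (ml S) x → ∃ n, I.lab S n x ∧ I.lab S' (t n) y := by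
      intro x
      by_cases hx : dm (ml S) x
      · obtain ⟨n, hn⟩ := Itq.ex_lab (I := I) hS hx
        obtain ⟨y, hy⟩ := Itq.lab_surj (I := I) hS' (t n)
        exact ⟨y, fun _ => ⟨n, hn, hy⟩⟩
      · exact ⟨0, fun h => absurd h hx⟩
    choose τ hτ using h1
    obtain ⟨σ, hσ⟩ := up (ml S) (ml S') hS.2 hS'.2 τ (fun x hx => by
        obtain ⟨n, -, h2⟩ := hτ x hx
        exact h2.1) (fun x y hx hy => by
        obtain ⟨n, h2, h3⟩ := hτ x hx
        obtain ⟨m, h4, h5⟩ := hτ y hy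
        have k1 := Itq.lab_eq (I := I) hS h2 h4
        have k2 := Itq.lab_eq (I := I) hS' h3 h5
        exact k2.trans (t.injective.eq_iff.trans k1.symm)) (fun y hy => by
        obtain ⟨n, hn⟩ := Itq.ex_lab (I := I) hS' hy
        obtain ⟨x, hx⟩ := Itq.lab_surj (I := I) hS (t.symm n)
        obtain ⟨m, h2, h3⟩ := hτ x hx.1
        refine ⟨x, hx.1, ?_⟩
        have k1 : m = t.symm n := (Itq.lab_eq (I := I) hS h2 hx).1 (refl _ hS.2 x hx.1)
        rw [k1, t.apply_symm_apply] at h3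
        exact (Itq.lab_eq (I := I) hS' h3 hn).2 rfl) (fun x y hx hy => by
        obtain ⟨n, h2, h3⟩ := hτ x hx
        obtain ⟨m, h4, h5⟩ := hτ y hy
        have k1 := Itq.rel_iff (I := I) hS FirstOrder.Language.graphRel.adj (u := ![x, y])
          (v := ![n, m]) (fun i => by
            refine Fin.cases ?_ (fun j => ?_) i
            · exact h2
            · refine Fin.cases ?_ (fun k => k.elim0) j
              exact h4)
        have k2 := Itq.rel_iff (I := I) hS' FirstOrder.Language.graphRel.adj (u := ![τ x, τ y])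
          (v := ![t n, t m]) (fun i => by
            refine Fin.cases ?_ (fun j => ?_) i
            · exact h3
            · refine Fin.cases ?_ (fun k => k.elim0) j
              exact h5)
        have k3 := iso_rel e FirstOrder.Language.graphRel.adj ![n, m]
        have k4 : ![t n, t m] = fun i => e ((![n, m] : Fin 2 → ℕ) i) := by
          funext i
          fin_cases i <;> rfl
        rw [k4] at k2
        exact k2.symm.trans (k3.trans k1)) hj
    exact siso_ml hS.1 hS'.1 σ hσ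
  refine transferQ I hc T1 (fun M hM => ?_) fun T' hT' => ?_
  · obtain ⟨μ, h1, π, h2, h3, h4, h5⟩ := ex M (hT1 M hM)
    have hS : ml (mkR (mkM μ)) = μ := by rw [ml_mkR, op_mkM]
    have hW : I.W (mkR (mkM μ)) := ⟨mkR_W _, by rw [hS]; exact h1⟩
    refine ⟨mkR (mkM μ), hW, ?_⟩
    have hd : ∀ u, I.dom (mkR (mkM μ)) u ↔ dm μ u := fun u => by
      show dm (ml (mkR (mkM μ))) u ↔ dm μ u
      rw [hS]
    have he : ∀ u v, I.eqv (mkR (mkM μ)) u v ↔ ev μ u v := fun u v => by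
      show ev (ml (mkR (mkM μ))) u v ↔ ev μ u v
      rw [hS]
    have hr : ∀ u : Fin 2 → ℕ, I.rel FirstOrder.Language.graphRel.adj (mkR (mkM μ)) u ↔
        rl μ (u 0) (u 1) := fun u => by
      show rl (ml (mkR (mkM μ))) (u 0) (u 1) ↔ rl μ (u 0) (u 1)
      rw [hS]
    obtain ⟨κ, hκ⟩ := equiv_of_rel (fun (n v : ℕ) => I.lab (mkR (mkM μ)) n (π v))
      (fun n => by
        obtain ⟨u, hu⟩ := Itq.lab_surj (I := I) hW n
        obtain ⟨v, hv⟩ := h4 u ((hd u).1 hu.1)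
        refine ⟨v, ?_⟩
        obtain ⟨m, hm⟩ := Itq.ex_lab (I := I) hW ((hd _).2 (h2 v))
        have k1 : m = n := (Itq.lab_eq (I := I) hW hm hu).1 ((he _ _).2 hv)
        rw [← k1]
        exact hm)
      (fun v => Itq.ex_lab (I := I) hW ((hd _).2 (h2 v)))
      (fun n v v' k1 k2 => (h3 v v').1 ((he _ _).1 ((Itq.lab_eq (I := I) hW k1 k2).2 rfl)))
      (fun n n' v k1 k2 => (Itq.lab_eq (I := I) hW k1 k2).1 (I.refl _ hW _ ((hd _).2 (h2 v))))
    refine siso_gd κ fun u v => ?_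
    have k1 := Itq.rel_iff (I := I) hW FirstOrder.Language.graphRel.adj
      (u := ![π (κ u), π (κ v)]) (v := ![u, v]) (fun i => by
        refine Fin.cases ?_ (fun j => ?_) i
        · exact hκ u
        · refine Fin.cases ?_ (fun k => k.elim0) j
          exact hκ v)
    refine Iff.trans ?_ k1.symm
    rw [hr]
    exact (h5 _ _).symm
  · refine red_fun (L := LM) (P := fun S => St0.W S ∧ FA (ml S)) (Q := fun M => K (op M))
      (fun S hS => hS.1) (fun M hM => ?_) h T' fun S hS => (hT' S hS).1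
    have h1 := hM.2
    rw [ml_mkR] at h1
    exact hK _ h1

end Pool.Agent.H4.FV
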