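import Pool.Agent.H4.FV.OddU

set_option autoImplicit false
set_option linter.unusedVariables false
set_option linter.unusedSectionVars false

/-! The relation of being the same vertex is an equivalence relation on vertices and a congruence for adjacency. -/

namespace Pool.Agent.H4.FV.CpEqv

open Pool.Agent.R620.GG
open Pool.Agent.H4.FV.Odd

section

variable {p : ℕ} [Fact p.Prime] {A : Type} [NonUnitalNonAssocRing A] [Module (ZMod p) A]

theorem sm (c : ZMod p) (x y : A) : (c • x) * y = c • (x * y) :=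
  ZMod.map_smul (AddMonoidHom.mulRight y) c x

theorem ms (c : ZMod p) (x y : A) : x * (c • y) = c • (x * y) :=
  ZMod.map_smul (AddMonoidHom.mulLeft x) c y

theorem ct_zero : Ct (0 : A) := fun x => zero_mul x

theorem ct_add {x y : A} (hx : Ct x) (hy : Ct y) : Ct (x + y) := fun z => by
  rw [add_mul, hx z, hy z, add_zero]

theorem ct_smul (c : ZMod p) {x : A} (hx : Ct x) : Ct (c • x) := fun z => by
  rw [sm, hx z, smul_zero]

theorem ct_mul (h : Alt2 A) {z : A} (hz : Ct z) (x : A) : x * z = 0 := by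
  rw [h.anti x z, hz x, neg_zero]

/-- the same vertex, in terms of one coefficient -/
theorem ev_iff (v w : A) : EvA p v w ↔ ∃ c : ZMod p, Ct (w + c • v) := by
  constructor
  · rintro ⟨c, hc⟩
    refine ⟨c 0, ?_⟩
    have e : lcA p (fun _ : Fin 1 => v) c = c 0 • v := by simp [lcA]
    rw [e] at hc; exact hc
  · rintro ⟨c, hc⟩
    refine ⟨fun _ => c, ?_⟩
    have e : lcA p (fun _ : Fin 1 => v) (fun _ => c) = c • v := by simp [lcA]
    rw [e]; exact hc

theorem vt_not_ct {v : A} (hv : VtA p v) : ¬ Ct v := by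
  obtain ⟨y, z, -, -, hi⟩ := hv
  have := hi ![1, 0, 0] ⟨0, by simp⟩
  have e : lcA p ![v, y, z] ![1, 0, 0] = v := by
    simp [lcA, Fin.sum_univ_three]
  rw [e] at this
  exact this

/-- the coefficient is not zero -/
theorem ev_coeff {v w : A} (hw : VtA p w) {c : ZMod p} (hc : Ct (w + c • v)) : c ≠ 0 := by
  rintro rfl
  rw [zero_smul, add_zero] at hc
  exact vt_not_ct hw hc

theorem ev_refl (v : A) : EvA p v v := by
  rw [ev_iff]
  refine ⟨-1, ?_⟩
  rw [neg_smul, one_smul, add_neg_cancel]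
  exact ct_zero

theorem ev_symm {v w : A} (hw : VtA p w) (h : EvA p v w) : EvA p w v := by
  rw [ev_iff] at h ⊢
  obtain ⟨c, hc⟩ := h
  have c0 := ev_coeff hw hc
  refine ⟨c⁻¹, ?_⟩
  have := ct_smul c⁻¹ hc
  rw [smul_add, smul_smul, inv_mul_cancel₀ c0, one_smul, add_comm] at this
  exact this

theorem ev_trans {u v w : A} (h1 : EvA p u v) (h2 : EvA p v w) : EvA p u w := by
  rw [ev_iff] at h1 h2 ⊢
  obtain ⟨c, hc⟩ := h1
  obtain ⟨d, hd⟩ := h2
  refine ⟨-(d * c), ?_⟩
  have := ct_add hd (ct_smul (-d) hc)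
  have e : w + d • v + (-d) • (v + c • u) = w + (-(d * c)) • u := by
    rw [smul_add, smul_smul, neg_smul, neg_mul]; abel
  rw [e] at this
  exact this

/-- a vertex in terms of another -/
theorem ev_eq {v w : A} (hw : VtA p w) (h : EvA p v w) :
    ∃ (c : ZMod p) (z : A), c ≠ 0 ∧ Ct z ∧ w = c • v + z := by
  rw [ev_iff] at h
  obtain ⟨c, hc⟩ := h
  refine ⟨-c, w + c • v, neg_ne_zero.2 (ev_coeff hw hc), hc, ?_⟩
  rw [neg_smul]; abel

theorem lc4 (v w a b : A) (c : Fin 4 → ZMod p) :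
    lcA p ![v, w, a, b] c = c 0 • v + c 1 • w + c 2 • a + c 3 • b := by
  simp [lcA, Fin.sum_univ_four]

theorem ind4 {v w a b : A} : IndA p ![v, w, a, b] ↔ ∀ c0 c1 c2 c3 : ZMod p,
    Ct (c0 • v + c1 • w + c2 • a + c3 • b) → c0 = 0 ∧ c1 = 0 ∧ c2 = 0 ∧ c3 = 0 := by
  constructor
  · intro h c0 c1 c2 c3 hc
    by_contra hn
    refine h ![c0, c1, c2, c3] ?_ ?_
    · by_contra hne
      push Not at hne
      exact hn ⟨by simpa using hne 0, by simpa using hne 1, by simpa using hne 2,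
        by simpa using hne 3⟩
    · rw [lc4]
      exact hc
  · rintro h c ⟨i, hi⟩ hc
    rw [lc4] at hc
    obtain ⟨h0, h1, h2, h3⟩ := h _ _ _ _ hc
    fin_cases i
    · exact hi h0
    · exact hi h1
    · exact hi h2
    · exact hi h3

theorem aj_congr (h : Alt2 A) {v w v' w' : A} (hv' : VtA p v') (hw' : VtA p w')
    (h1 : EvA p v v') (h2 : EvA p w w') (hj : AjA p v w) : AjA p v' w' := by
  obtain ⟨c, z1, c0, hz1, e1⟩ := ev_eq hv' h1
  obtain ⟨d, z2, d0, hz2, e2⟩ := ev_eq hw' h2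
  obtain ⟨a, b, hv, hw, hi, hq⟩ := hj
  refine ⟨(c * d) • a, b, hv', hw', ?_, ?_⟩
  · rw [ind4] at hi ⊢
    intro c0' c1' c2' c3' hc
    rw [e1, e2] at hc
    have hz : Ct ((-c0') • z1 + (-c1') • z2) := ct_add (ct_smul _ hz1) (ct_smul _ hz2)
    have hs := ct_add hc hz
    have e : c0' • (c • v + z1) + c1' • (d • w + z2) + c2' • (c * d) • a + c3' • b +
        ((-c0') • z1 + (-c1') • z2) =
        (c0' * c) • v + (c1' * d) • w + (c2' * (c * d)) • a + c3' • b := by
      rw [smul_add, smul_add, smul_smul, smul_smul, smul_smul, neg_smul, neg_smul]; abel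
    rw [e] at hs
    obtain ⟨k0, k1, k2, k3⟩ := hi _ _ _ _ hs
    exact ⟨(mul_eq_zero.1 k0).resolve_right c0, (mul_eq_zero.1 k1).resolve_right d0,
      (mul_eq_zero.1 k2).resolve_right (mul_ne_zero c0 d0), k3⟩
  · rw [e1, e2, add_mul, hz1, mul_add, ct_mul h hz2, add_zero, add_zero, sm, ms, sm,
      smul_smul, ← smul_add, hq, smul_zero]

theorem aj_symm (h : Alt2 A) {v w : A} (hj : AjA p v w) : AjA p w v := by
  obtain ⟨a, b, hv, hw, hi, hq⟩ := hj
  refine ⟨b, a, hw, hv, ?_, ?_⟩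
  · rw [ind4] at hi ⊢
    intro c0 c1 c2 c3 hc
    have e : c0 • w + c1 • v + c2 • b + c3 • a = c1 • v + c0 • w + c3 • a + c2 • b := by abel
    rw [e] at hc
    obtain ⟨k0, k1, k2, k3⟩ := hi _ _ _ _ hc
    exact ⟨k1, k0, k3, k2⟩
  · rw [h.anti w v, h.anti b a, ← neg_add, hq, neg_zero]

theorem aj_irr {v w : A} (hj : AjA p v w) : ¬ EvA p v w := by
  rw [ev_iff]
  rintro ⟨c, hc⟩
  obtain ⟨a, b, hv, hw, hi, hq⟩ := hj
  rw [ind4] at hi
  have e : w + c • v = c • v + (1 : ZMod p) • w + (0 : ZMod p) • a + (0 : ZMod p) • b := by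
    rw [one_smul, zero_smul, zero_smul, add_zero, add_zero, add_comm]
  rw [e] at hc
  exact one_ne_zero (hi _ _ _ _ hc).2.1

end

theorem eqv : S_eqv := by
  intro p _ hp A _ _ h
  exact ⟨ev_refl, fun v w _ hw => ev_symm hw, fun u v w _ _ _ => ev_trans,
    fun v w v' w' _ _ hv' hw' => aj_congr h hv' hw', fun v w => aj_symm h, fun v w => aj_irr⟩

end Pool.Agent.H4.FV.CpEqv
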