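import Pool.Agent.H4.FV.Eng
import Pool.Graph.R_pool_sql_team_seeded_63374d34.N649.SV.Stm

set_option autoImplicit false
set_option linter.unusedVariables false

/-! Vaught's conjecture for first-order theories and the varieties of semigroups: the leaves. -/

namespace Pool.Agent.H4.FV

open FirstOrder FirstOrder.Language
open Pool.Agent.W889.FO
open Pool.Agent.TH686.FO
open Pool.Agent.W889.VC (VCof)
open Pool.Agent.H4.VG
open Pool.Agent.N649.SV
open Pool.Agent.N649.SG.Light

/-- nilpotent commutative semigroups -/
def Lf_N : Prop := Red (fun μ => KN μ)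

/-- semilattices.

Coding of a graph `M` with `StD.W 0 M` (so every vertex `u` which is not `Big` is isolated or has
exactly two neighbours, both `Big`; `Big` vertices are independent; two `Big` vertices have at most
one common neighbour): a bottom element `0`, and the vertices. Vertex `x` is coded by the set `F x`
of vertices, `F x = {x}` if `x` is not `Big`, `F x = ` the neighbours of `x` if `x` is `Big`, and
`F 0 = ∅`; the product is given by `F (x y) = F x ∩ F y` (an injective family closed under
intersection).

`rl μ x y`: `x ≠ y`, neither is zero (a zero is a `z` with `μ z u = z` for all `u`), and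
`μ x y = x ∨ μ x y = y`. `dm μ x`: `x` is not zero. `FA μ`: semilattice; there is a zero; whenever
`x, y` are nonzero, different and `μ x y = x` then `x` is not `Big (rl μ)` and `y` is.
`up`: for nonzero `z`, `μ x y = z` iff `x = y = z`, or `rl x y ∧ z = x ∧ ¬ Big x`, or
`rl x y ∧ z = y ∧ ¬ Big y`, or `x ≠ y ∧ ¬ rl x y ∧ rl z x ∧ rl z y ∧ ¬ Big z`; extend `τ` by
`0 ↦ 0`. -/
def Lf_S : Prop := Red (fun μ => KS μ)

/-- semigroups with `x y z = x y`.

Coding of a graph `M` with `StD.W 0 M`: elements `a, b` and the vertices. All elements but the
`Big` vertices are left zeros (`μ x y = x`). For a `Big` vertex `x`: `μ x y = b` if `y` is a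
vertex (not `Big`) adjacent to `x`, and `μ x y = a` for all other `y`.

`lz μ x`: `∀ y, μ x y = x`. `dm μ x`: `∀ y z, μ y z = x → y = x`.
`rl μ x y`: `(¬ lz x ∧ lz y ∧ μ x y ≠ μ x x) ∨ (¬ lz y ∧ lz x ∧ μ y x ≠ μ y y)`.
`FA μ`: `∃ a b, a ≠ b ∧ lz a ∧ lz b ∧ (∃ x y, ¬ lz x ∧ μ x y = b) ∧ (∀ x, ¬ lz x → ∀ y,
(μ x y = a ∨ μ x y = b) ∧ (¬ lz y ∨ y = a ∨ y = b → μ x y = a)) ∧
∀ x, x ≠ a → x ≠ b → (¬ lz x ↔ Big (rl μ) x)`. -/
def Lf_P : Prop := Red (fun μ => KP μ)

/-- semigroups with `x y z = x z`.

Coding of a graph `M` with `StD.W 0 M` (only: symmetric, irreflexive, infinite is needed): the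
triples `(i, k, t)`, where `i, k` are vertices, `t < m i k`, and `m i k = 3` if `i = k`, `= 2` if
`i, k` are adjacent, `= 1` else; product `(i, k, t) (i', k', t') = (i, k', 0)`.

`D μ d` (`= dm`): `μ d d = d` and there are `x, y` with `d, x, y` different and
`μ x x = d = μ y y`. `rl μ d d'`: `D d ∧ D d' ∧ d ≠ d' ∧ ∃ x, x ≠ μ d d' ∧ μ x x = μ d d'`.
`FA μ`: `KR μ`; no `e` has four different `x` with `μ x x = e`; if `μ e e = e` and there are
three different `x` with `μ x x = e` then (it is `D e`); if exactly two then `e = μ d d'` for
some `d, d'` in `D`, anyway (follows from the next); for every `e` with `μ e e = e` there is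
exactly one `d` with `D d ∧ μ d e = e` and exactly one `d'` with `D d' ∧ μ e d' = e`; `D` is
infinite (scheme: for all `n` there is an injective `X : Fin n → ℕ` with values in `D`).
`up`: the fibres `{x | μ x x = e}` for `e = μ d d'` have 3, 2 or 1 elements, according to
`d = d'`, `rl d d'`, neither; choose bijections of the fibres fixing `e`. -/
def Lf_R : Prop := Red (fun μ => KR μ)

/-- inflations of elementary abelian `p`-groups.

Coding of a graph `M` with `StD.W 0 M`: `G` is the vector space over `ZMod p` with the vertices as
a basis; the semigroup is `{(a, t) : a ∈ G, t < m a}`, `m a = 3` if `a` is a vertex, `m a = 2` if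
`a = v + w` with `v, w` adjacent, `m a = 1` else; product `(a, t) (b, s) = (a + b, 0)`.

In `FA`: `μ` is commutative, associative, `x ^ p = y ^ p` (`=: z`), `(x y) x ^ p = x y` (so the
`x` with `x z = x` form an elementary abelian `p`-group, `KI p` holds with `f x = x z`); the fibres
of `x ↦ x z` have at most 3 elements; `D` (`= dm`): the `d` with `d z = d` whose fibre has 3
elements; scheme: different elements of `D` are linearly independent (and `D` is infinite,
scheme); every element with a fibre of exactly 2 elements is `d + d'` with `d ≠ d'` in `D`.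
`rl d d'`: `d ≠ d'` in `D` and the fibre of `d d'` has 2 elements. Use `engineJ` with the invariant
`j μ : Option ℕ` = the dimension of `G / span D` (`none` if infinite): compare `D1`, `fl`,
`bp_fl`, `bp_D1` in `Pool/Agent/H4/VG/Cls.lean`, `Fo3.lean`. (Uniqueness: extend `D` to a basis.) -/
def Lf_I : Prop := ∀ p : ℕ, p.Prime → Red (fun μ => KI p μ)

/-- Rees matrix semigroups over `ZMod p`.

Coding of a graph `M` with `StD.W 0 M`: `I = {i0} ∪ Big` vertices, `K = {k0} ∪` the other vertices,
`P k i = 1` if `k ≠ k0`, `i ≠ i0` and `k, i` are adjacent, and `P k i = 0` otherwise.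
Let `e = (i0, 0, k0)`. The set `dm` consists of the idempotents `f = (i, 0, k0)`, `i ≠ i0` (that
is `f f = f`, `f e = f`, `e f = e`, `f ≠ e`) and the idempotents `g = (i0, 0, k)`, `k ≠ k0`
(`g g = g`, `e g = g`, `g e = e`, `g ≠ e`); `rl x y`: `x` is a `g` and `y` is an `f` and
`x y ≠ e`, or conversely. `e` is definable: it is the only idempotent for which every `g` has at
most two `f` with `g f ≠ e` and such that some `g` has one (and there are infinitely many `f`);
`FA` says (with `e` quantified existentially): `μ` is associative; the `h` with
`e h = h = h e` form a group `H` with `p` elements; every element is uniquely `f h g` with `f, g`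
as above or `e`, `h` in `H`; `g f` (it is in `H`) takes at most one value besides `e` on all
pairs; the graph `rl` (with `e`) satisfies enough of the axioms of `StD.W 0` to get the
definability of `e` (for instance: an `f` which has a neighbour has three; every `g` has no or
exactly two neighbours; there are infinitely many `f` with neighbours). `up`: choose the
isomorphism of `H` with `ZMod p` that sends the unique value of the products `g f ≠ e` to `1`. -/
def Lf_C : Prop := ∀ p : ℕ, p.Prime → Red (fun μ => KC p μ)

/-- the opposite class: translate formulas (structures `mkM fun x y => μ y x`, theory `T` of the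
opposite structures) -/
def Lf_flip : Prop := ∀ K : (ℕ → ℕ → ℕ) → Prop, Red K → Red (fun μ => K (fun x y => μ y x))

/-- classes of operations in which the dichotomy holds for all invariant Borel sets -/
def Lf_good : Prop := ∀ K : Bin → Prop, VCof True OIso K → ∀ T : LM.Theory,
  (∀ M : LM.Structure ℕ, @Theory.Model LM ℕ M T → K (op M)) → VaughtF LM T

/-- Identities: a group `G` with elements `x, y` whose commutator `c` commutes with `x, y` and
with `c ^ n ≠ 1` for all odd `n`, and an element `z` such that `z ^ n = 1` only if `4 ∣ n`; then
every identity of `G` holds in all groups `H` in which squares are central and fourth powers are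
trivial.

Proof: for a term `t` and an assignment in a group of class 2 in which only the variables
`i < j` get values `≠ 1` one has `t = x ^ n_i y ^ n_j [.,.] ^ m_ij`, `n_i` the number of
occurrences of the variable `i`, `m_ij` the number of inversions. In `H`: the value of `t` is the
ordered product of the `x_i ^ n_i` times the product of the `[x_i, x_j] ^ m_ij`. -/
def Lf_two : Prop := ∀ (E : Set (T × T)) (G : Type) (_ : Group G) (x y z c : G),
  c = x⁻¹ * y⁻¹ * x * y → x * c = c * x → y * c = c * y → (∀ n : ℕ, c ^ n = 1 → 2 ∣ n) →
  (∀ n : ℕ, z ^ n = 1 → 4 ∣ n) → Sa E (fun a b : G => a * b) →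
  ∀ (H : Type) (_ : Group H), (∀ a b : H, (a * a) * b = b * (a * a)) →
    (∀ a : H, a ^ 4 = 1) → Sa E (fun a b : H => a * b)

end Pool.Agent.H4.FV
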