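import Pool.Agent.H4.FV.OddF
import Pool.Agent.H4.VG.Fo4
import Pool.Agent.H113.FV.Bridge
import Pool.Agent.H168.FV.Trans
import Pool.Agent.H236.FV.Fd
import Pool.Agent.H650.FV.Ax
import Pool.Agent.H974.FV.Df
import Pool.Agent.H898.FV.OddBp
import Pool.Agent.H47.FV.Fac
import Pool.Agent.H806.FV.Loose
import Pool.Agent.H71.FV.Cen
import Pool.Agent.H591.FV.OddIso
import Pool.Agent.H308.FV.OddCo
import Pool.Agent.H234.FV.OddTri
import Pool.Agent.H358.FV.OddQd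
import Pool.Agent.H585.FV.Easy
import Pool.Agent.H356.FV.Sind
import Pool.Agent.H295.FV.Srel
import Pool.Agent.H627.FV.Sfin
import Pool.Agent.H596.FV.Rel
import Pool.Agent.H643.FV.OddGen
import Pool.Agent.H77.FV.Ct
import Pool.Agent.H4.FV.Eqv
import Pool.Agent.H224.FV.Pmap
import Pool.Agent.H4.FV.Card
import Pool.Agent.H881.FV.Ex
import Pool.Agent.H4.FV.Two
import Pool.Agent.H314.FV.Nil
import Pool.Graph.R_pool_sql_team_seeded_63374d34.N649.SN.Nil

set_option autoImplicit false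

/-! Varieties with a nonabelian nilpotent group. -/

namespace Pool.Agent.H4.FV

open FirstOrder FirstOrder.Language
open Pool.Agent.W889.FO
open Pool.Agent.TH686.FO
open Pool.Agent.W889.FO.StE (LG)
open Pool.Agent.H4.VG (LR LM ml op FA mu E2)
open Pool.Agent.N649
open Pool.Agent.N649.SV
open Pool.Agent.N649.SG.Light
open Pool.Agent.N649.SL.CoL (WW inVar_iff isG_iff)
open Pool.Agent.R620.GG
open scoped commutatorElement

/-- groups of class two and exponent `p`, `p` odd -/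
theorem red_odd (p : ℕ) [Fact p.Prime] (hp2 : p ≠ 2) : Red (Odd.KO p) :=
  Odd.leaf H113.FV.grp H113.FV.bridge (H650.FV.ax H236.FV.fd) (H974.FV.df H236.FV.fd)
    (H898.FV.bp H236.FV.fd) (H596.FV.rel H47.FV.fac H806.FV.loose) (H643.FV.gen H806.FV.loose)
    H71.FV.cen H591.FV.iso CpEqv.eqv H224.FV.pmap CpCard.card
    (H881.FV.ex H113.FV.bridge H168.FV.trans) H77.FV.ct H308.FV.co H234.FV.tri H358.FV.qd
    H585.FV.easy H356.FV.sind H295.FV.srel H627.FV.sfin p hp2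

/-- the groups of exponent four coding graphs -/
theorem red_two : Red (fun μ => FA μ) := by
  intro h T
  refine H4.VG.red_WG (fun T2 hT2 => ?_) T
  refine H4.VG.Fun.red_fun (L := LM) (P := H4.VG.WG) (Q := fun M => FA (op M))
    (fun S hS => hS.1) (fun M hM => ?_) h T2 hT2
  rw [← H4.VG.ml_mkR]
  exact hM.2

theorem grp_mu {M : Type} (g : Group M) : Grp (@mu M g) := by
  refine ⟨fun x y z => mul_assoc x y z, fun a b => ⟨⟨a⁻¹ * b, ?_⟩, ⟨b * a⁻¹, ?_⟩⟩⟩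
  · show a * (a⁻¹ * b) = b
    rw [mul_inv_cancel_left]
  · show b * a⁻¹ * a = b
    rw [inv_mul_cancel_right]

theorem var_cl2 {E : Set (T × T)} {p : ℕ} (hp : p.Prime) (hp2 : p ≠ 2) {G : Type} [Group G]
    (hE : Sa E (fun x y : G => x * y)) {a b : G} (hc : ∀ z : G, ⁅a, b⁆ * z = z * ⁅a, b⁆)
    (hab : ∀ n : ℤ, ⁅a, b⁆ ^ n = 1 → (p : ℤ) ∣ n) (H : Type) [Group H] (h : Cl2 p H) :
    Sa E (fun x y : H => x * y) := by
  have : Fact p.Prime := ⟨hp⟩
  have hH := heis_var hp hp2 ((inVar_iff E G).2 hE) hc hab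
  exact (inVar_iff E H).1 (Pool.Agent.Results.MP_ec9ef7_lc.VarietiesOfGroups.in_var
    (cl2_heis hp hp2) hH (heis_nonab hp) h)

theorem e2_four {H : Type} [Group H] (h : E2 H) :
    (∀ a b : H, (a * a) * b = b * (a * a)) ∧ ∀ a : H, a ^ 4 = 1 := by
  refine ⟨fun a b => ((Subgroup.mem_center_iff.1 (h.sq a)) b).symm, fun a => ?_⟩
  have h1 := h.ex (a * a) (h.sq a)
  have h2 : a ^ 4 = a * a * (a * a) := by
    rw [← pow_two, ← pow_two, ← pow_mul]
  rw [h2, h1]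

/-- **Varieties with a nonabelian nilpotent group.** -/
theorem red_nil {E : Set (T × T)} (h : ∃ (G : Type) (_ : Group G),
    Sa E (fun x y : G => x * y) ∧ Group.IsNilpotent G ∧ ∃ a b : G, a * b ≠ b * a) :
    Red (fun o => Grp o ∧ Sa E o) := by
  obtain ⟨G, iG, hE, hnil, hne⟩ := h
  rcases H314.FV.leaf_nil G hnil hne with ⟨p, hp, hp2, a, b, hc, hab⟩ |
    ⟨x, y, z, c, h1, h2, h3, h4, h5⟩
  · have : Fact p.Prime := ⟨hp⟩
    refine (red_odd p hp2).mono ?_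
    rintro μ ⟨g, rfl, hC⟩
    exact ⟨grp_mu g, @var_cl2 E p hp hp2 G iG hE a b hc hab ℕ g hC⟩
  · refine red_two.mono fun μ hμ => ?_
    obtain ⟨g, rfl⟩ := hμ.exg
    have hE2 : @E2 ℕ g := @FA.e2 ℕ g hμ
    obtain ⟨k1, k2⟩ := @e2_four ℕ g hE2
    exact ⟨grp_mu g, CpTwo.leaf_two E G iG x y z c h1 h2 h3 h4 h5 hE ℕ g k1 k2⟩

end Pool.Agent.H4.FV
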