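import Pool.Agent.H4.FV.Stm
import Pool.Graph.R_seed8.R620.GG.Alg

set_option autoImplicit false
set_option linter.unusedVariables false
set_option linter.unusedSectionVars false

/-! Groups of exponent `p` and class two, `p` odd: first-order axioms of the groups coding graphs. -/

namespace Pool.Agent.H4.FV.Odd

open Pool.Agent.N649.SG.Light (pw)
open Pool.Agent.R620.GG
open Pool.Agent.H4.VG (Cen)
open scoped commutatorElement

section ops

variable {α : Type} (p : ℕ) (μ : α → α → α)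

/-- the inverse -/
def iv (x : α) : α := pw μ x (p - 2)

/-- the commutator `x y x⁻¹ y⁻¹` -/
def cm (x y : α) : α := μ (μ (μ x y) (iv p μ x)) (iv p μ y)

/-- the Baer sum -/
def ad (x y : α) : α := μ (μ x y) (pw μ (cm p μ y x) (hf p - 1))

/-- scalar multiples -/
def sm (c : ZMod p) (x : α) : α := pw μ x (c.val + p - 1)

/-- Baer sums of lists -/
def sums (e : α) (l : List α) : α := l.foldr (ad p μ) e

/-- linear combinations -/
noncomputable def lc {ι : Type} [Fintype ι] (e : α) (u : ι → α) (c : ι → ZMod p) : α :=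
  sums p μ e ((Finset.univ : Finset ι).toList.map fun i => sm p μ (c i) (u i))

/-- bilinear combinations -/
noncomputable def bl {ι : Type} [Fintype ι] (e : α) (u : ι → α) (C : ι → ι → ZMod p) : α :=
  sums p μ e ((Finset.univ : Finset (ι × ι)).toList.map fun q =>
    sm p μ (C q.1 q.2) (cm p μ (u q.1) (u q.2)))

/-- linearly independent modulo the centre -/
def Ind {ι : Type} [Fintype ι] (u : ι → α) : Prop :=
  ∀ e, μ e e = e → ∀ c : ι → ZMod p, (∃ i, c i ≠ 0) → ¬ Cen μ (lc p μ e u c)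

/-- in the span of `u` and the centre -/
def InS {ι : Type} [Fintype ι] (u : ι → α) (x : α) : Prop :=
  ∃ e, μ e e = e ∧ ∃ c : ι → ZMod p, Cen μ (ad p μ x (lc p μ e u c))

/-- a vertex `v` and two independent elements commuting with it -/
def Tri (v y z : α) : Prop := μ v y = μ y v ∧ μ v z = μ z v ∧ Ind p μ ![v, y, z]

/-- vertices -/
def Vt (v : α) : Prop := ∃ y z, Tri p μ v y z

/-- the same vertex -/
def Ev (v w : α) : Prop := InS p μ (fun _ : Fin 1 => v) w

/-- `v, w` are adjacent, witnessed by `a, b` -/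
def Qd (v w a b : α) : Prop := Vt p μ v ∧ Vt p μ w ∧ Ind p μ ![v, w, a, b] ∧
  ∀ e, μ e e = e → μ (cm p μ v w) (cm p μ a b) = e

/-- adjacent -/
def Aj (v w : α) : Prop := ∃ a b, Qd p μ v w a b

end ops

/-- the index type of a configuration: vertices with two commuting elements, edges with two
witnesses -/
abbrev Ix (n m : ℕ) : Type := (Fin n × Fin 3) ⊕ (Fin m × Fin 2)

/-- the elements of a configuration -/
def cf {α : Type} {n m : ℕ} (v y z : Fin n → α) (a b : Fin m → α) : Ix n m → α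
  | Sum.inl (i, j) => ![v i, y i, z i] j
  | Sum.inr (k, j) => ![a k, b k] j

/-- the elements of a loose configuration -/
def cf' {α : Type} {n m : ℕ} (v y z : Fin n → α) (v' w' a b : Fin m → α) :
    (Fin n × Fin 3) ⊕ (Fin m × Fin 4) → α
  | Sum.inl (i, j) => ![v i, y i, z i] j
  | Sum.inr (k, j) => ![v' k, w' k, a k, b k] j

/-- the shape of a configuration: `m` different edges between `n` vertices -/
structure Shape (n m : ℕ) (s t : Fin m → Fin n) : Prop where
  ne : ∀ k, s k ≠ t k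
  inj : ∀ k l, (s k = s l ∧ t k = t l) ∨ (s k = t l ∧ t k = s l) → k = l

/-- a configuration -/
structure Cfg {α : Type} (p : ℕ) (μ : α → α → α) {n m : ℕ} (s t : Fin m → Fin n)
    (v y z : Fin n → α) (a b : Fin m → α) : Prop where
  tri : ∀ i, Tri p μ (v i) (y i) (z i)
  ne : ∀ i j, i ≠ j → ¬ Ev p μ (v i) (v j)
  qd : ∀ k, Qd p μ (v (s k)) (v (t k)) (a k) (b k)

/-- alternating matrices -/
def Altm {ι : Type} {p : ℕ} (C : ι → ι → ZMod p) : Prop :=
  (∀ i, C i i = 0) ∧ ∀ i j, C i j = - C j i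

/-- matrices on a configuration without the coefficients that the relations determine -/
def Red0 {n m : ℕ} {p : ℕ} (C : Ix n m → Ix n m → ZMod p) : Prop :=
  (∀ i, C (Sum.inl (i, 0)) (Sum.inl (i, 1)) = 0) ∧
  (∀ i, C (Sum.inl (i, 0)) (Sum.inl (i, 2)) = 0) ∧
  ∀ k, C (Sum.inr (k, 0)) (Sum.inr (k, 1)) = 0

/-- the axioms -/
structure FA {α : Type} (p : ℕ) (μ : α → α → α) : Prop where
  assoc : ∀ x y z, μ (μ x y) z = μ x (μ y z)
  unit : ∃ e, (∀ x, μ e x = x) ∧ ∀ x, ∃ y, μ y x = e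
  expo : ∀ e x, μ e e = e → pw μ x (p - 1) = e
  cls : ∀ x y, Cen μ (cm p μ x y)
  /-- the centralisers of vertices -/
  cen : ∀ v y z x, Tri p μ v y z → μ v x = μ x v → InS p μ ![v, y, z] x
  /-- the witnesses of adjacency -/
  wit : ∀ v w a b a' b', Qd p μ v w a b → Qd p μ v w a' b' →
    InS p μ ![a, b] a' ∧ InS p μ ![a, b] b'
  /-- independence of configurations -/
  ind : ∀ (n m : ℕ) (s t : Fin m → Fin n), Shape n m s t →
    ∀ (v y z : Fin n → α) (a b : Fin m → α), Cfg p μ s t v y z a b → Ind p μ (cf v y z a b)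
  /-- no other relations on configurations -/
  rel : ∀ (n m : ℕ) (s t : Fin m → Fin n), Shape n m s t → ∀ C : Ix n m → Ix n m → ZMod p,
    Altm C → Red0 C → (∃ q q', C q q' ≠ 0) →
    ∀ (v y z : Fin n → α) (a b : Fin m → α) (e : α), μ e e = e → Cfg p μ s t v y z a b →
      bl p μ e (cf v y z a b) C ≠ e
  /-- relations are supported by few vertices and edges -/
  fin : ∀ (r : ℕ) (C : Fin r → Fin r → ZMod p), Altm C → (Matrix.of C).det ≠ 0 →
    ∀ (u : Fin r → α) (e : α), μ e e = e → Ind p μ u → bl p μ e u C = e →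
      ∃ (n m : Fin (r + 1)) (v y z : Fin n → α) (v' w' a b : Fin m → α),
        (∀ i, Tri p μ (v i) (y i) (z i)) ∧ (∀ k, Qd p μ (v' k) (w' k) (a k) (b k)) ∧
        ∀ i, InS p μ (cf' v y z v' w' a b) (u i)
  /-- infinitely many vertices -/
  inf : ∀ n : ℕ, ∃ v : Fin n → α, (∀ i, Vt p μ (v i)) ∧ ∀ i j, i ≠ j → ¬ Ev p μ (v i) (v j)

/-- `n` elements are independent modulo the vertices, their centralisers and the witnesses of
adjacency -/
def J1 {α : Type} (p : ℕ) (μ : α → α → α) (n : ℕ) : Prop :=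
  ∃ e, μ e e = e ∧ ∃ u : Fin n → α, ∀ (k m : ℕ) (v y z : Fin k → α) (v' w' a b : Fin m → α),
    (∀ i, Tri p μ (v i) (y i) (z i)) → (∀ k, Qd p μ (v' k) (w' k) (a k) (b k)) →
    ∀ c : Fin n → ZMod p, (∃ i, c i ≠ 0) → ¬ InS p μ (cf' v y z v' w' a b) (lc p μ e u c)

/-- `n` central elements are independent modulo the products -/
def J2 {α : Type} (p : ℕ) (μ : α → α → α) (n : ℕ) : Prop :=
  ∃ e, μ e e = e ∧ ∃ u : Fin n → α, (∀ i, Cen μ (u i)) ∧
    ∀ c : Fin n → ZMod p, (∃ i, c i ≠ 0) → ∀ (m : ℕ) (x y : Fin m → α),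
      lc p μ e u c ≠ sums p μ e (List.ofFn fun j => cm p μ (x j) (y j))

end Pool.Agent.H4.FV.Odd
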