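import Pool.Agent.H4.FV.OddU
import Pool.Agent.H4.FV.Eng2

set_option autoImplicit false
set_option linter.unusedVariables false
set_option linter.unusedSectionVars false

/-! Groups of class two and exponent `p`, `p` odd: the assembly. -/

namespace Pool.Agent.H4.FV.Odd

open FirstOrder FirstOrder.Language
open Pool.Agent.W889.FO
open Pool.Agent.TH686.FO
open Pool.Agent.W889.VC (BP)
open Pool.Agent.W889.FO.StE (LG gd)
open Pool.Agent.R620.VA
open Pool.Agent.R620.GG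
open Pool.Agent.H4.VG (Cen LR LM ml fl fl_none fl_some bp_fl mu)

/-- downward closed predicates with the same first failure -/
theorem fl_eq {P Q : ℕ → Prop} (hP : ∀ n, P (n + 1) → P n) (hQ : ∀ n, Q (n + 1) → Q n)
    (h : fl P = fl Q) (n : ℕ) : P n ↔ Q n := by
  have hP' : ∀ m n, n ≤ m → P m → P n := by
    intro m n hnm
    induction hnm with
    | refl => exact id
    | step _ ih => exact fun k => ih (hP _ k)
  have hQ' : ∀ m n, n ≤ m → Q m → Q n := by
    intro m n hnm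
    induction hnm with
    | refl => exact id
    | step _ ih => exact fun k => ih (hQ _ k)
  rcases h1 : fl P with _ | k
  · have h2 : fl Q = none := by rw [← h, h1]
    exact iff_of_true (fl_none.1 h1 n) (fl_none.1 h2 n)
  · have h2 : fl Q = some k := by rw [← h, h1]
    have h3 := fl_some.1 h1
    have h4 := fl_some.1 h2
    constructor
    · intro h5
      exact h4.2 n (by
        by_contra h6
        exact h3.1 (hP' _ _ (not_lt.1 h6) h5))
    · intro h5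
      exact h3.2 n (by
        by_contra h6
        exact h4.1 (hQ' _ _ (not_lt.1 h6) h5))

theorem emb_mono {D : Type} (n : ℕ) (h : ∃ f : Fin (n + 1) → D, Function.Injective f) :
    ∃ f : Fin n → D, Function.Injective f := by
  obtain ⟨f, hf⟩ := h
  exact ⟨fun i => f i.castSucc, fun i j hij => Fin.castSucc_injective n (hf hij)⟩

/-- the class of the groups -/
def KO (p : ℕ) (μ : ℕ → ℕ → ℕ) : Prop :=
  ∃ g : Group ℕ, @mu ℕ g = μ ∧ @Cl2 p ℕ g

theorem leaf (hgrp : S_grp) (hbr : S_bridge) (hax : S_ax) (hdef : S_def) (hbp : S_bp)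
    (hrel : S_rel) (hgen : S_gen) (hcen : S_cen) (hiso : S_iso) (heqv : S_eqv) (hpm : S_pmap)
    (hcard : S_card) (hex : S_ex) (hct : S_ct) (hco : S_co) (htri : S_tri) (hqd : S_qd)
    (heasy : S_easy) (hsind : S_sind) (hsrel : S_srel) (hsfin : S_sfin)
    (p : ℕ) [Fact p.Prime] (hp2 : p ≠ 2) : Red (KO p) := by
  have hG : ∀ μ : ℕ → ℕ → ℕ, FA p μ → ∃ (g : Group ℕ) (h : Cl2 p ℕ),
      μ = @mu ℕ g ∧ FAA p (LG p ℕ h) := by
    intro μ hμ
    obtain ⟨g, h1, h2⟩ := hgrp p hp2 ℕ μ hμ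
    have h3 : μ = @mu ℕ g := funext fun x => funext fun y => (h1 x y).symm
    refine ⟨g, h2, h3, ?_⟩
    rw [h3] at hμ
    exact (@hbr p _ hp2 ℕ g h2).1.1 hμ
  have hA : ∀ {G : Type} [Group G] (h : Cl2 p G), Alt2 (LG p G h) := by
    intro G _ h
    have hc : ∀ a b c : LG p G h, a * b * c = 0 := fun a b c => h.comm a b c
    have hal : ∀ a : LG p G h, a * a = 0 := fun a => commutatorElement_self (G := G) a
    refine ⟨hc, fun a b c => ?_, hal⟩
    have h1 : a * (b * c) + (b * c) * a = 0 := by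
      have h2 := hal (a + b * c)
      rw [add_mul, mul_add, mul_add, hal, hal, zero_add, add_zero] at h2
      exact h2
    rwa [hc, add_zero] at h1
  refine engineQ (J := Option ℕ × Option ℕ) (FA p) (fun μ x => Vt p μ x)
    (fun μ x y => Ev p μ x y) (fun μ x y => Aj p μ x y)
    (fun μ => (fl (J1 p μ), fl (J2 p μ))) (hax p) (hdef p).1 (hdef p).2.1 (hdef p).2.2
    ?_ ?_ ?_ ?_ ?_ ?_ ?_ ?_ ?_
  · intro μ hμ u hu
    obtain ⟨g, h, rfl, hF⟩ := hG μ hμ
    obtain ⟨-, b2, b3, b4, -⟩ := @hbr p _ hp2 ℕ g h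
    exact (b3 _ _).2 ((heqv p hp2 _ (hA h)).1 _)
  · intro μ hμ u v hu hv huv
    obtain ⟨g, h, rfl, hF⟩ := hG μ hμ
    obtain ⟨-, b2, b3, b4, -⟩ := @hbr p _ hp2 ℕ g h
    exact (b3 _ _).2 ((heqv p hp2 _ (hA h)).2.1 _ _ ((b2 _).1 hu) ((b2 _).1 hv) ((b3 _ _).1 huv))
  · intro μ hμ u v w hu hv hw huv hvw
    obtain ⟨g, h, rfl, hF⟩ := hG μ hμ
    obtain ⟨-, b2, b3, b4, -⟩ := @hbr p _ hp2 ℕ g h
    exact (b3 _ _).2 ((heqv p hp2 _ (hA h)).2.2.1 _ _ _ ((b2 _).1 hu) ((b2 _).1 hv)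
      ((b2 _).1 hw) ((b3 _ _).1 huv) ((b3 _ _).1 hvw))
  · intro μ hμ u v u' v' hu hv hu' hv' h1 h2 h3
    obtain ⟨g, h, rfl, hF⟩ := hG μ hμ
    obtain ⟨-, b2, b3, b4, -⟩ := @hbr p _ hp2 ℕ g h
    exact (b4 _ _).2 ((heqv p hp2 _ (hA h)).2.2.2.1 _ _ _ _ ((b2 _).1 hu) ((b2 _).1 hv)
      ((b2 _).1 hu') ((b2 _).1 hv') ((b3 _ _).1 h1) ((b3 _ _).1 h2) ((b4 _ _).1 h3))
  · intro μ hμ
    exact hμ.inf
  · intro μ μ' hμ hμ' τ t1 t2 t3 t4 hj
    obtain ⟨g, h, hm, hF⟩ := hG μ hμ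
    obtain ⟨g', h', hm', hF'⟩ := hG μ' hμ'
    subst hm hm'
    obtain ⟨-, b2, b3, b4, b5, b6⟩ := @hbr p _ hp2 ℕ g h
    obtain ⟨-, c2, c3, c4, c5, c6⟩ := @hbr p _ hp2 ℕ g' h'
    have hE := heqv p hp2 (@LG p ℕ g h) (@hA ℕ g h)
    have hE' := heqv p hp2 (@LG p ℕ g' h') (@hA ℕ g' h')
    -- the representatives
    let mg : ℕ → ℕ → ℕ := @mu ℕ g
    let V : Type := {x : ℕ // Vt p mg x ∧ ∀ y, y < x → Vt p mg y → ¬ Ev p mg y x}
    let E : V → V → Prop := fun v w => v.1 < w.1 ∧ Aj p mg v.1 w.1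
    have hmin : ∀ x, Vt p mg x → ∃ v : V, Ev p mg v.1 x := by
      classical
      intro x hx
      have hex : ∃ y, Vt p mg y ∧ Ev p mg y x := ⟨x, hx, (b3 _ _).2 (hE.1 _)⟩
      refine ⟨⟨Nat.find hex, (Nat.find_spec hex).1, fun y h1 h2 h3 => ?_⟩,
        (Nat.find_spec hex).2⟩
      refine Nat.find_min hex h1 ⟨h2, ?_⟩
      exact (b3 _ _).2 (hE.2.2.1 _ _ _ ((b2 _).1 h2) ((b2 _).1 (Nat.find_spec hex).1)
        ((b2 _).1 hx) ((b3 _ _).1 h3) ((b3 _ _).1 (Nat.find_spec hex).2))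
    have hne : ∀ v w : V, v ≠ w → ¬ Ev p mg v.1 w.1 := by
      intro v w hvw hev
      rcases lt_trichotomy v.1 w.1 with h1 | h1 | h1
      · exact w.2.2 _ h1 v.2.1 hev
      · exact hvw (Subtype.ext h1)
      · exact v.2.2 _ h1 w.2.1 ((b3 _ _).2 (hE.2.1 _ _ ((b2 _).1 v.2.1) ((b2 _).1 w.2.1)
          ((b3 _ _).1 hev)))
    have hR : Rep p (A := @LG p ℕ g h) E (fun v => v.1) := by
      refine ⟨fun v => (b2 _).1 v.2.1, fun v w hvw hev => hne v w hvw ((b3 _ _).2 hev),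
        fun x hx => ?_, fun v w hvw => (b4 _ _).1 hvw.2, fun v w hvw => ?_,
        fun v w h1 h2 => lt_asymm h1.1 h2.1⟩
      · obtain ⟨v, hv⟩ := hmin x ((b2 _).2 hx)
        exact ⟨v, (b3 _ _).1 hv⟩
      · rcases lt_trichotomy v.1 w.1 with h1 | h1 | h1
        · exact Or.inl ⟨h1, (b4 _ _).2 hvw⟩
        · exact absurd (by rw [h1]; exact hE.1 _) (hE.2.2.2.2.2 _ _ hvw)
        · exact Or.inr ⟨h1, (b4 _ _).2 (hE.2.2.2.2.1 _ _ hvw)⟩
    have hR' : Rep p (A := @LG p ℕ g' h') E (fun v => τ v.1) := by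
      refine ⟨fun v => (c2 _).1 (t1 _ v.2.1), fun v w hvw hev => ?_, fun x hx => ?_,
        fun v w hvw => ?_, fun v w hvw => ?_, fun v w h1 h2 => lt_asymm h1.1 h2.1⟩
      · exact hne v w hvw ((t2 _ _ v.2.1 w.2.1).1 ((c3 _ _).2 hev))
      · obtain ⟨x0, h1, h2⟩ := t3 x ((c2 _).2 hx)
        obtain ⟨v, hv⟩ := hmin x0 h1
        refine ⟨v, ?_⟩
        exact hE'.2.2.1 _ _ _ ((c2 _).1 (t1 _ v.2.1)) ((c2 _).1 (t1 _ h1)) hx
          ((c3 _ _).1 ((t2 _ _ v.2.1 h1).2 hv)) ((c3 _ _).1 h2)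
      · exact (c4 _ _).1 ((t4 _ _ v.2.1 w.2.1).2 hvw.2)
      · have hvw' : Aj p mg v.1 w.1 := (t4 _ _ v.2.1 w.2.1).1 ((c4 _ _).2 hvw)
        rcases lt_trichotomy v.1 w.1 with h1 | h1 | h1
        · exact Or.inl ⟨h1, hvw'⟩
        · exact absurd (by rw [h1]; exact hE'.1 _) (hE'.2.2.2.2.2 _ _ hvw)
        · exact Or.inr ⟨h1, (b4 _ _).2 (hE.2.2.2.2.1 _ _ ((b4 _ _).1 hvw'))⟩
    obtain ⟨D1, s, hs1, hs2, hs3⟩ := hgen p hp2 _ V E _ (@hA ℕ g h) hF hR
    obtain ⟨D1', s', hs1', hs2', hs3'⟩ := hgen p hp2 _ V E _ (@hA ℕ g' h') hF' hR'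
    obtain ⟨D2, z, hz1, hz2, hz3, hz4⟩ := hcen p hp2 _ _ s (@hA ℕ g h) hs1.span
    obtain ⟨D2', z', hz1', hz2', hz3', hz4'⟩ := hcen p hp2 _ _ s' (@hA ℕ g' h') hs1'.span
    have hP : Pres p s z := ⟨hs2, hs1.span, hs1.ind,
      hrel p hp2 _ V E D1 _ s (@hA ℕ g h) hF hR hs1, hz1, hz2, hz3⟩
    have hP' : Pres p s' z' := ⟨hs2', hs1'.span, hs1'.ind,
      hrel p hp2 _ V E D1' _ s' (@hA ℕ g' h') hF' hR' hs1', hz1', hz2', hz3'⟩
    have j1 : ∀ n, J1A p (@LG p ℕ g h) n ↔ J1A p (@LG p ℕ g' h') n := fun n => by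
      rw [← b5, ← c5]
      refine fl_eq (fun n hn => ?_) (fun n hn => ?_) (congrArg Prod.fst hj) n
      · exact (b5 _).2 ((hs3 _).2 (emb_mono n ((hs3 _).1 ((b5 _).1 hn))))
      · exact (c5 _).2 ((hs3' _).2 (emb_mono n ((hs3' _).1 ((c5 _).1 hn))))
    have j2 : ∀ n, J2A p (@LG p ℕ g h) n ↔ J2A p (@LG p ℕ g' h') n := fun n => by
      rw [← b6, ← c6]
      refine fl_eq (fun n hn => ?_) (fun n hn => ?_) (congrArg Prod.snd hj) n
      · exact (b6 _).2 ((hz4 _).2 (emb_mono n ((hz4 _).1 ((b6 _).1 hn))))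
      · exact (c6 _).2 ((hz4' _).2 (emb_mono n ((hz4' _).1 ((c6 _).1 hn))))
    have hnt : (1 : ZMod p) ≠ 0 := one_ne_zero
    have is : ∀ {A : Type} [NonUnitalNonAssocRing A] [Module (ZMod p) A] {D D' : Type}
        {t : Bx V E D → A}, (∀ c : Bx V E D →₀ ZMod p,
          Ct (Finsupp.linearCombination (ZMod p) t c) → c = 0) → Function.Injective t := by
      intro A _ _ D D' t ht a b hab
      by_contra hne
      have h1 := ht (Finsupp.single a 1 - Finsupp.single b 1) (by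
        rw [map_sub, Finsupp.linearCombination_single, Finsupp.linearCombination_single, hab,
          sub_self]
        exact fun x => zero_mul x)
      have h2 := DFunLike.congr_fun h1 a
      classical
      rw [Finsupp.sub_apply, Finsupp.single_apply, Finsupp.single_apply, if_pos rfl,
        if_neg (Ne.symm hne), sub_zero] at h2
      exact hnt h2
    have iz : ∀ {A B : Type} [NonUnitalNonAssocRing A] [Module (ZMod p) A] {D : Type}
        {z : D → A} {s : B → A}, (∀ (c : D →₀ ZMod p) (M : (B × B) →₀ ZMod p),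
          Finsupp.linearCombination (ZMod p) z c = bil p s M → c = 0) →
        Function.Injective z := by
      intro A B _ _ D z s hz a b hab
      by_contra hne
      have h1 := hz (Finsupp.single a 1 - Finsupp.single b 1) 0 (by
        rw [map_sub, Finsupp.linearCombination_single, Finsupp.linearCombination_single, hab,
          sub_self]
        exact (Finsupp.sum_zero_index).symm)
      have h2 := DFunLike.congr_fun h1 a
      classical
      rw [Finsupp.sub_apply, Finsupp.single_apply, Finsupp.single_apply, if_pos rfl,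
        if_neg (Ne.symm hne), sub_zero] at h2
      exact hnt h2
    have c0 : Countable (@LG p ℕ g h) := inferInstanceAs (Countable ℕ)
    have c0' : Countable (@LG p ℕ g' h') := inferInstanceAs (Countable ℕ)
    have k1 : Countable D1 := (show Function.Injective fun d : D1 => s (Sum.inr d) from
      (is (D' := D1) hs1.ind).comp Sum.inr_injective).countable
    have k1' : Countable D1' := (show Function.Injective fun d : D1' => s' (Sum.inr d) from
      (is (D' := D1) hs1'.ind).comp Sum.inr_injective).countable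
    have k2 : Countable D2 := (show Function.Injective fun d : D2 => z d from
      iz hz2).countable
    have k2' : Countable D2' := (show Function.Injective fun d : D2' => z' d from
      iz hz2').countable
    obtain ⟨e1⟩ := hcard D1 D1' fun n => by rw [← hs3, ← hs3', j1]
    obtain ⟨e2⟩ := hcard D2 D2' fun n => by rw [← hz4, ← hz4', j2]
    have hP'' := hpm p _ V E D1' D2' D1 D2 s' z' e1 e2 hP'
    have hi := hiso p hp2 _ _ V E D1 D2 s z _ _ hR.as (@hA ℕ g h) (@hA ℕ g' h') hP hP''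
    obtain ⟨φ⟩ := @iso_LG p _ ℕ ℕ g g' h h' hi
    exact ⟨@MulEquiv.toEquiv ℕ ℕ g.toMulOneClass.toMul g'.toMulOneClass.toMul φ,
      @MulEquiv.map_mul' ℕ ℕ g.toMulOneClass.toMul g'.toMulOneClass.toMul φ⟩
  · rintro f hb hW ⟨c1, c2⟩
    have hW' : ∀ y, St0.W (f y) := fun y => (hW y).1
    have h1 := hbp p f hb hW'
    refine ((bp_fl (fun n => (h1 n).1) c1).and (bp_fl (fun n => (h1 n).2) c2)).congr fun y => ?_
    exact (Prod.mk.injEq _ _ _ _).symm ▸ Iff.rfl
  · intro M hM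
    have hs : ∀ u v, gd M u v → gd M v u := hM.sd.symm
    have hi : ∀ u, ¬ gd M u u := hM.sd.irrefl
    have h1 := hct p hp2 (gd M)
    have h2 := hco p hp2 (gd M) h1
    have h3 := htri p hp2 (gd M) h1 h2
    have h4 := hqd p hp2 (gd M) h1 h3
    obtain ⟨e1, e2, e3, e4, e5, e6, e7⟩ := heasy p hp2 (gd M) hs hi h1 h3 h4
    have hF : FAA p (SA p (gd M)) := ⟨e1, e2, hsind p hp2 _ h1 h3 h4, hsrel p hp2 _ h1 h3 h4,
      hsfin p hp2 _ h1 h3 h4, e3⟩
    exact hex p hp2 (gd M) hF e4 e5 e6 e7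
  · intro μ hμ
    obtain ⟨g, h1, h2⟩ := hgrp p hp2 ℕ μ hμ
    exact ⟨g, funext fun x => funext fun y => h1 x y, h2⟩

end Pool.Agent.H4.FV.Odd
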