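import Pool.Agent.H4.FV.Odd

set_option autoImplicit false
set_option linter.unusedVariables false
set_option linter.unusedSectionVars false

/-! The algebra version of the axioms, and the statements of the subtasks. -/

namespace Pool.Agent.H4.FV.Odd

open FirstOrder FirstOrder.Language
open Pool.Agent.W889.FO
open Pool.Agent.TH686.FO
open Pool.Agent.W889.VC (BP)
open Pool.Agent.R620.VA
open Pool.Agent.R620.GG
open Pool.Agent.H4.VG (Cen LR LM ml fl)

section alg

variable (p : ℕ) {A : Type} [NonUnitalNonAssocRing A] [Module (ZMod p) A]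

/-- central (all algebras below satisfy `Alt2`) -/
def Ct (z : A) : Prop := ∀ x : A, z * x = 0

/-- linear combinations -/
def lcA {ι : Type} [Fintype ι] (u : ι → A) (c : ι → ZMod p) : A := ∑ i, c i • u i

/-- bilinear combinations -/
def blA {ι : Type} [Fintype ι] (u : ι → A) (C : ι → ι → ZMod p) : A :=
  ∑ i, ∑ j, C i j • (u i * u j)

def IndA {ι : Type} [Fintype ι] (u : ι → A) : Prop :=
  ∀ c : ι → ZMod p, (∃ i, c i ≠ 0) → ¬ Ct (lcA p u c)

def InSA {ι : Type} [Fintype ι] (u : ι → A) (x : A) : Prop :=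
  ∃ c : ι → ZMod p, Ct (x + lcA p u c)

def TriA (v y z : A) : Prop := v * y = 0 ∧ v * z = 0 ∧ IndA p ![v, y, z]

def VtA (v : A) : Prop := ∃ y z, TriA p v y z

def EvA (v w : A) : Prop := InSA p (fun _ : Fin 1 => v) w

def QdA (v w a b : A) : Prop := VtA p v ∧ VtA p w ∧ IndA p ![v, w, a, b] ∧ v * w + a * b = 0

def AjA (v w : A) : Prop := ∃ a b, QdA p v w a b

structure CfgA {n m : ℕ} (s t : Fin m → Fin n) (v y z : Fin n → A) (a b : Fin m → A) : Prop where
  tri : ∀ i, TriA p (v i) (y i) (z i)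
  ne : ∀ i j, i ≠ j → ¬ EvA p (v i) (v j)
  qd : ∀ k, QdA p (v (s k)) (v (t k)) (a k) (b k)

variable (A)

/-- the centralisers of vertices -/
def FcenA : Prop := ∀ v y z x : A, TriA p v y z → v * x = 0 → InSA p ![v, y, z] x

/-- the witnesses of adjacency -/
def FwitA : Prop := ∀ v w a b a' b' : A, QdA p v w a b → QdA p v w a' b' →
    InSA p ![a, b] a' ∧ InSA p ![a, b] b'

/-- independence of configurations -/
def FindA : Prop := ∀ (n m : ℕ) (s t : Fin m → Fin n), Shape n m s t →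
    ∀ (v y z : Fin n → A) (a b : Fin m → A), CfgA p s t v y z a b → IndA p (cf v y z a b)

/-- no other relations on configurations -/
def FrelA : Prop := ∀ (n m : ℕ) (s t : Fin m → Fin n), Shape n m s t →
    ∀ C : Ix n m → Ix n m → ZMod p, Altm C → Red0 C → (∃ q q', C q q' ≠ 0) →
    ∀ (v y z : Fin n → A) (a b : Fin m → A), CfgA p s t v y z a b → blA p (cf v y z a b) C ≠ 0

/-- relations are supported by few vertices and edges -/
def FfinA : Prop := ∀ (r : ℕ) (C : Fin r → Fin r → ZMod p), Altm C → (Matrix.of C).det ≠ 0 →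
    ∀ u : Fin r → A, IndA p u → blA p u C = 0 →
      ∃ (n m : Fin (r + 1)) (v y z : Fin n → A) (v' w' a b : Fin m → A),
        (∀ i, TriA p (v i) (y i) (z i)) ∧ (∀ k, QdA p (v' k) (w' k) (a k) (b k)) ∧
        ∀ i, InSA p (cf' v y z v' w' a b) (u i)

/-- infinitely many vertices -/
def FinfA : Prop := ∀ n : ℕ, ∃ v : Fin n → A, (∀ i, VtA p (v i)) ∧
    ∀ i j, i ≠ j → ¬ EvA p (v i) (v j)

/-- the axioms -/
structure FAA : Prop where
  cen : FcenA p A
  wit : FwitA p A
  ind : FindA p A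
  rel : FrelA p A
  fin : FfinA p A
  inf : FinfA p A

def J1A (n : ℕ) : Prop :=
  ∃ u : Fin n → A, ∀ (k m : ℕ) (v y z : Fin k → A) (v' w' a b : Fin m → A),
    (∀ i, TriA p (v i) (y i) (z i)) → (∀ k, QdA p (v' k) (w' k) (a k) (b k)) →
    ∀ c : Fin n → ZMod p, (∃ i, c i ≠ 0) → ¬ InSA p (cf' v y z v' w' a b) (lcA p u c)

def J2A (n : ℕ) : Prop :=
  ∃ u : Fin n → A, (∀ i, Ct (u i)) ∧ ∀ c : Fin n → ZMod p, (∃ i, c i ≠ 0) →
    ∀ (m : ℕ) (x y : Fin m → A), lcA p u c ≠ ∑ j, x j * y j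

end alg

/-! ### Presentations -/

/-- the index type of the generators -/
abbrev Bx (V : Type) (E : V → V → Prop) (D1 : Type) : Type :=
  ((V × Fin 3) ⊕ ({q : V × V // E q.1 q.2} × Fin 2)) ⊕ D1

section pres

variable (p : ℕ) {A : Type} [NonUnitalNonAssocRing A] [Module (ZMod p) A]
  {V : Type} {E : V → V → Prop} {D1 D2 : Type}

/-- bilinear combinations -/
noncomputable def bil {B : Type} (s : B → A) (M : (B × B) →₀ ZMod p) : A :=
  M.sum fun q r => r • (s q.1 * s q.2)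

/-- alternating -/
def AltF {B : Type} {p : ℕ} (M : (B × B) →₀ ZMod p) : Prop :=
  (∀ b, M (b, b) = 0) ∧ ∀ b b', M (b, b') = - M (b', b)

/-- the coefficients determined by the relations vanish -/
def R0 {p : ℕ} (M : (Bx V E D1 × Bx V E D1) →₀ ZMod p) : Prop :=
  (∀ v : V, M (Sum.inl (Sum.inl (v, 0)), Sum.inl (Sum.inl (v, 1))) = 0) ∧
  (∀ v : V, M (Sum.inl (Sum.inl (v, 0)), Sum.inl (Sum.inl (v, 2))) = 0) ∧
  ∀ q, M (Sum.inl (Sum.inr (q, 0)), Sum.inl (Sum.inr (q, 1))) = 0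

/-- the generators satisfy the relations -/
structure PreRel (s : Bx V E D1 → A) : Prop where
  r1 : ∀ v : V, s (Sum.inl (Sum.inl (v, 0))) * s (Sum.inl (Sum.inl (v, 1))) = 0
  r2 : ∀ v : V, s (Sum.inl (Sum.inl (v, 0))) * s (Sum.inl (Sum.inl (v, 2))) = 0
  r3 : ∀ q : {q : V × V // E q.1 q.2}, s (Sum.inl (Sum.inl (q.1.1, 0))) *
    s (Sum.inl (Sum.inl (q.1.2, 0))) + s (Sum.inl (Sum.inr (q, 0))) *
      s (Sum.inl (Sum.inr (q, 1))) = 0

/-- a presentation -/
structure Pres (s : Bx V E D1 → A) (z : D2 → A) : Prop where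
  pre : PreRel s
  span : ∀ x : A, ∃ c : Bx V E D1 →₀ ZMod p, Ct (x - Finsupp.linearCombination (ZMod p) s c)
  ind : ∀ c : Bx V E D1 →₀ ZMod p, Ct (Finsupp.linearCombination (ZMod p) s c) → c = 0
  rel : ∀ M : (Bx V E D1 × Bx V E D1) →₀ ZMod p, AltF M → R0 M → bil p s M = 0 → M = 0
  zc : ∀ d, Ct (z d)
  zi : ∀ (c : D2 →₀ ZMod p) (M : (Bx V E D1 × Bx V E D1) →₀ ZMod p),
    Finsupp.linearCombination (ZMod p) z c = bil p s M → c = 0
  zs : ∀ x : A, Ct x → ∃ (c : D2 →₀ ZMod p) (M : (Bx V E D1 × Bx V E D1) →₀ ZMod p),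
    x = Finsupp.linearCombination (ZMod p) z c + bil p s M

/-- the hypotheses on the chosen vertices and edges -/
structure Rep (E : V → V → Prop) (ρ : V → A) : Prop where
  vt : ∀ v, VtA p (ρ v)
  ne : ∀ v w, v ≠ w → ¬ EvA p (ρ v) (ρ w)
  all : ∀ x : A, VtA p x → ∃ v, EvA p (ρ v) x
  e1 : ∀ v w, E v w → AjA p (ρ v) (ρ w)
  e2 : ∀ v w, AjA p (ρ v) (ρ w) → E v w ∨ E w v
  as : ∀ v w, E v w → ¬ E w v

end pres

/-! ### The standard algebra -/

section std

variable (p : ℕ) (Γ : ℕ → ℕ → Prop)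

/-- oriented edges -/
abbrev Eo (v w : ℕ) : Prop := v < w ∧ Γ v w

/-- the generators -/
abbrev Bs : Type := (ℕ × Fin 3) ⊕ ({q : ℕ × ℕ // Eo Γ q.1 q.2} × Fin 2)

/-- `N` is the matrix of a relation: it vanishes on all pairs but `(v, v')`, `(v, v'')`, `(v, w)`,
`(a, b)`, (and the reversed pairs), with equal coefficients at `(v, w)` and `(a, b)` -/
structure IsRel {p : ℕ} {Γ : ℕ → ℕ → Prop} (N : Bs Γ → Bs Γ → ZMod p) : Prop where
  vv : ∀ v w : ℕ, v ≤ w → ¬ Eo Γ v w → N (Sum.inl (v, 0)) (Sum.inl (w, 0)) = 0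
  e : ∀ q : {q : ℕ × ℕ // Eo Γ q.1 q.2}, N (Sum.inl (q.1.1, 0)) (Sum.inl (q.1.2, 0)) =
    N (Sum.inr (q, 0)) (Sum.inr (q, 1))
  v' : ∀ (v w : ℕ) (i : Fin 3), i ≠ 0 → v ≠ w → N (Sum.inl (v, 0)) (Sum.inl (w, i)) = 0
  v'' : ∀ (v w : ℕ) (i j : Fin 3), i ≠ 0 → j ≠ 0 → N (Sum.inl (v, i)) (Sum.inl (w, j)) = 0
  ve : ∀ (v : ℕ × Fin 3) (q : {q : ℕ × ℕ // Eo Γ q.1 q.2} × Fin 2),
    N (Sum.inl v) (Sum.inr q) = 0
  ee : ∀ q q' : {q : ℕ × ℕ // Eo Γ q.1 q.2} × Fin 2, q.1 ≠ q'.1 ∨ q.2 = q'.2 →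
    N (Sum.inr q) (Sum.inr q') = 0

/-- the kernel of the product: the tensors whose antisymmetrisation is a relation -/
def Kr : Submodule (ZMod p) ((Bs Γ × Bs Γ) →₀ ZMod p) where
  carrier := {M | IsRel (p := p) (Γ := Γ) fun b b' => M (b, b') - M (b', b)}
  zero_mem' := by constructor <;> intros <;> simp
  add_mem' := by
    intro M N hM hN
    refine ⟨fun v w h1 h2 => ?_, fun q => ?_, fun v w i h1 h2 => ?_, fun v w i j h1 h2 => ?_,
      fun v q => ?_, fun q q' h => ?_⟩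
    · have k1 := hM.vv v w h1 h2
      have k2 := hN.vv v w h1 h2
      simp only [Finsupp.add_apply] at *
      linear_combination k1 + k2
    · have k1 := hM.e q
      have k2 := hN.e q
      simp only [Finsupp.add_apply] at *
      linear_combination k1 + k2
    · have k1 := hM.v' v w i h1 h2
      have k2 := hN.v' v w i h1 h2
      simp only [Finsupp.add_apply] at *
      linear_combination k1 + k2
    · have k1 := hM.v'' v w i j h1 h2
      have k2 := hN.v'' v w i j h1 h2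
      simp only [Finsupp.add_apply] at *
      linear_combination k1 + k2
    · have k1 := hM.ve v q
      have k2 := hN.ve v q
      simp only [Finsupp.add_apply] at *
      linear_combination k1 + k2
    · have k1 := hM.ee q q' h
      have k2 := hN.ee q q' h
      simp only [Finsupp.add_apply] at *
      linear_combination k1 + k2
  smul_mem' := by
    intro c M hM
    refine ⟨fun v w h1 h2 => ?_, fun q => ?_, fun v w i h1 h2 => ?_, fun v w i j h1 h2 => ?_,
      fun v q => ?_, fun q q' h => ?_⟩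
    · have k1 := hM.vv v w h1 h2
      simp only [Finsupp.smul_apply, smul_eq_mul] at *
      linear_combination c * k1
    · have k1 := hM.e q
      simp only [Finsupp.smul_apply, smul_eq_mul] at *
      linear_combination c * k1
    · have k1 := hM.v' v w i h1 h2
      simp only [Finsupp.smul_apply, smul_eq_mul] at *
      linear_combination c * k1
    · have k1 := hM.v'' v w i j h1 h2
      simp only [Finsupp.smul_apply, smul_eq_mul] at *
      linear_combination c * k1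
    · have k1 := hM.ve v q
      simp only [Finsupp.smul_apply, smul_eq_mul] at *
      linear_combination c * k1
    · have k1 := hM.ee q q' h
      simp only [Finsupp.smul_apply, smul_eq_mul] at *
      linear_combination c * k1

/-- the tensor of two vectors -/
noncomputable def tn {p : ℕ} {B : Type} (x y : B →₀ ZMod p) : (B × B) →₀ ZMod p :=
  Finsupp.onFinset (x.support ×ˢ y.support) (fun q => x q.1 * y q.2) fun q hq => by
    rw [Finset.mem_product, Finsupp.mem_support_iff, Finsupp.mem_support_iff]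
    exact ⟨fun h => hq (by rw [h, zero_mul]), fun h => hq (by rw [h, mul_zero])⟩

theorem tn_apply {p : ℕ} {B : Type} (x y : B →₀ ZMod p) (b b' : B) :
    tn x y (b, b') = x b * y b' := rfl

theorem tn_add {p : ℕ} {B : Type} (x x' y : B →₀ ZMod p) : tn (x + x') y = tn x y + tn x' y := by
  ext ⟨b, b'⟩
  simp only [tn_apply, Finsupp.add_apply, add_mul]

theorem tn_add' {p : ℕ} {B : Type} (x y y' : B →₀ ZMod p) : tn x (y + y') = tn x y + tn x y' := by
  ext ⟨b, b'⟩
  simp only [tn_apply, Finsupp.add_apply, mul_add]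

theorem tn_zero {p : ℕ} {B : Type} (y : B →₀ ZMod p) : tn 0 y = 0 := by
  ext ⟨b, b'⟩
  simp only [tn_apply, Finsupp.zero_apply, zero_mul]

theorem tn_zero' {p : ℕ} {B : Type} (x : B →₀ ZMod p) : tn x 0 = 0 := by
  ext ⟨b, b'⟩
  simp only [tn_apply, Finsupp.zero_apply, mul_zero]

/-- the standard algebra -/
def SA : Type := (Bs Γ →₀ ZMod p) × (((Bs Γ × Bs Γ) →₀ ZMod p) ⧸ Kr p Γ)

noncomputable instance : AddCommGroup (SA p Γ) :=
  inferInstanceAs (AddCommGroup ((Bs Γ →₀ ZMod p) × (((Bs Γ × Bs Γ) →₀ ZMod p) ⧸ Kr p Γ)))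

noncomputable instance : Module (ZMod p) (SA p Γ) :=
  inferInstanceAs (Module (ZMod p) ((Bs Γ →₀ ZMod p) × (((Bs Γ × Bs Γ) →₀ ZMod p) ⧸ Kr p Γ)))

noncomputable instance : NonUnitalNonAssocRing (SA p Γ) where
  mul := fun x y => ((0, (Kr p Γ).mkQ (tn x.1 y.1)) :
    (Bs Γ →₀ ZMod p) × (((Bs Γ × Bs Γ) →₀ ZMod p) ⧸ Kr p Γ))
  left_distrib := fun x y z => by
    refine Prod.ext (add_zero 0).symm ?_
    show (Kr p Γ).mkQ (tn x.1 (y.1 + z.1)) = (Kr p Γ).mkQ (tn x.1 y.1) + (Kr p Γ).mkQ (tn x.1 z.1)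
    rw [tn_add', map_add]
  right_distrib := fun x y z => by
    refine Prod.ext (add_zero 0).symm ?_
    show (Kr p Γ).mkQ (tn (x.1 + y.1) z.1) = (Kr p Γ).mkQ (tn x.1 z.1) + (Kr p Γ).mkQ (tn y.1 z.1)
    rw [tn_add, map_add]
  zero_mul := fun x => by
    refine Prod.ext rfl ?_
    show (Kr p Γ).mkQ (tn 0 x.1) = 0
    rw [tn_zero, map_zero]
  mul_zero := fun x => by
    refine Prod.ext rfl ?_
    show (Kr p Γ).mkQ (tn x.1 0) = 0
    rw [tn_zero', map_zero]

variable {p Γ}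

theorem mul_fst (x y : SA p Γ) : (x * y).1 = 0 := rfl

theorem mul_snd (x y : SA p Γ) : (x * y).2 = (Kr p Γ).mkQ (tn x.1 y.1) := rfl

/-- the standard vertices -/
noncomputable def sv (v : ℕ) : SA p Γ := (Finsupp.single (Sum.inl (v, 0)) 1, 0)

theorem mem_Kr {M : (Bs Γ × Bs Γ) →₀ ZMod p} : M ∈ Kr p Γ ↔
    IsRel (p := p) (Γ := Γ) fun b b' => M (b, b') - M (b', b) := Iff.rfl

theorem alt2_SA : Alt2 (SA p Γ) where
  nil := fun a b c => by
    refine Prod.ext rfl ?_
    rw [mul_snd, mul_fst, tn_zero, map_zero]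
    rfl
  nil' := fun a b c => by
    refine Prod.ext rfl ?_
    rw [mul_snd, mul_fst, tn_zero', map_zero]
    rfl
  alt := fun a => by
    refine Prod.ext rfl ?_
    rw [mul_snd, Submodule.mkQ_apply]
    refine (Submodule.Quotient.mk_eq_zero _).2 ?_
    rw [mem_Kr]
    constructor <;> intros <;> simp only [tn_apply] <;> ring

end std

end Pool.Agent.H4.FV.Odd
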