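import Pool.Agent.H4.FV.OddS
import Pool.Agent.H4.VG.Fo3

set_option autoImplicit false
set_option linter.unusedVariables false
set_option linter.unusedSectionVars false

/-! The statements of the subtasks (`p` is an odd prime everywhere). -/

namespace Pool.Agent.H4.FV.Odd

open FirstOrder FirstOrder.Language
open Pool.Agent.W889.FO
open Pool.Agent.TH686.FO
open Pool.Agent.W889.VC (BP)
open Pool.Agent.R620.VA
open Pool.Agent.R620.GG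
open Pool.Agent.H4.VG (Cen LR LM ml FT)

/-! ### groups and algebras -/

/-- an operation with the axioms is a group of class two and exponent `p` -/
def S_grp : Prop := ∀ (p : ℕ) [Fact p.Prime], p ≠ 2 → ∀ (α : Type) (μ : α → α → α), FA p μ →
  ∃ g : Group α, (∀ x y : α, x * y = μ x y) ∧ Cl2 p α

/-- the dictionary between the group and its algebra: `cm` is the product, `ad` the sum, `sm` the
scalar multiplication of `LG p α h`; `Cen` is `Ct` -/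
def S_bridge : Prop := ∀ (p : ℕ) [Fact p.Prime], p ≠ 2 → ∀ (α : Type) [Group α] (h : Cl2 p α),
  (FA p (fun x y : α => x * y) ↔ FAA p (LG p α h)) ∧
  (∀ v : α, Vt p (fun x y : α => x * y) v ↔ VtA p (A := LG p α h) v) ∧
  (∀ v w : α, Ev p (fun x y : α => x * y) v w ↔ EvA p (A := LG p α h) v w) ∧
  (∀ v w : α, Aj p (fun x y : α => x * y) v w ↔ AjA p (A := LG p α h) v w) ∧
  (∀ n, J1 p (fun x y : α => x * y) n ↔ J1A p (LG p α h) n) ∧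
  ∀ n, J2 p (fun x y : α => x * y) n ↔ J2A p (LG p α h) n

/-- isomorphic algebras satisfy the same axioms -/
def S_trans : Prop := ∀ (p : ℕ) [Fact p.Prime], ∀ (A A' : Type) [NonUnitalNonAssocRing A]
  [Module (ZMod p) A] [NonUnitalNonAssocRing A'] [Module (ZMod p) A']
  (e : A ≃ₗ[ZMod p] A'), (∀ x y : A, e (x * y) = e x * e y) → FAA p A →
  FAA p A' ∧ (∀ v, VtA p v ↔ VtA p (e v)) ∧ (∀ v w, EvA p v w ↔ EvA p (e v) (e w)) ∧
    ∀ v w, AjA p v w ↔ AjA p (e v) (e w)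

/-! ### first-order definability and measurability -/

/-- definability of the basic predicates; `FT u` means that `u` is given by a term -/
def S_fd : Prop := ∀ (p : ℕ) [Fact p.Prime] (ι α : Type) [Fintype ι]
  (u : ι → LR.Structure ℕ → (α → ℕ) → ℕ) (x : LR.Structure ℕ → (α → ℕ) → ℕ)
  (c : ι → ZMod p) (C : ι → ι → ZMod p), (∀ i, FT (u i)) → FT x →
  FT (fun S v => lc p (ml S) (x S v) (fun i => u i S v) c) ∧
  FT (fun S v => bl p (ml S) (x S v) (fun i => u i S v) C) ∧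
  FD (St0.W (L := LM)) (fun S v => Ind p (ml S) fun i => u i S v) ∧
  FD (St0.W (L := LM)) (fun S v => InS p (ml S) (fun i => u i S v) (x S v))

/-- the axioms are axioms -/
def S_ax : Prop := ∀ (p : ℕ) [Fact p.Prime], Ax (fun S : LR.Structure ℕ => St0.W S ∧ FA p (ml S))

/-- the graph is definable -/
def S_def : Prop := ∀ (p : ℕ) [Fact p.Prime],
  FD (St0.W (L := LM)) (fun S (v : Unit → ℕ) => Vt p (ml S) (v ())) ∧
  FD (St0.W (L := LM)) (fun S (v : Fin 2 → ℕ) => Ev p (ml S) (v 0) (v 1)) ∧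
  FD (St0.W (L := LM)) (fun S (v : Fin 2 → ℕ) => Aj p (ml S) (v 0) (v 1))

/-- the invariants are measurable -/
def S_bp : Prop := ∀ (p : ℕ) [Fact p.Prime] (f : (ℕ → Bool) → LR.Structure ℕ),
  (∀ (n : ℕ) (R : LR.Relations n) (a : Fin n → ℕ),
    BP (fun y => @Structure.RelMap LR ℕ (f y) n R a)) → (∀ y, St0.W (f y)) →
  ∀ n, BP (fun y => J1 p (ml (f y)) n) ∧ BP (fun y => J2 p (ml (f y)) n)

/-! ### uniqueness -/

/-- factorisation of alternating matrices: `M = Uᵀ C U` with `C` invertible and independent rows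
of `U` -/
def S_fac : Prop := ∀ (p : ℕ) [Fact p.Prime], p ≠ 2 → ∀ (ι : Type) [Fintype ι]
  (M : ι → ι → ZMod p), Altm M →
  ∃ (r : ℕ) (U : Fin r → ι → ZMod p) (C : Fin r → Fin r → ZMod p), Altm C ∧
    (Matrix.of C).det ≠ 0 ∧ LinearIndependent (ZMod p) U ∧
    ∀ i j, M i j = ∑ k, ∑ l, C k l * U k i * U l j

section uq

variable (p : ℕ) {A : Type} [NonUnitalNonAssocRing A] [Module (ZMod p) A]
  {V : Type} {E : V → V → Prop} {D1 : Type}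

/-- good generators -/
structure Gen (ρ : V → A) (s : Bx V E D1 → A) : Prop where
  rep : ∀ v, s (Sum.inl (Sum.inl (v, 0))) = ρ v
  tri : ∀ v, TriA p (s (Sum.inl (Sum.inl (v, 0)))) (s (Sum.inl (Sum.inl (v, 1))))
    (s (Sum.inl (Sum.inl (v, 2))))
  qd : ∀ q : {q : V × V // E q.1 q.2}, QdA p (s (Sum.inl (Sum.inl (q.1.1, 0))))
    (s (Sum.inl (Sum.inl (q.1.2, 0)))) (s (Sum.inl (Sum.inr (q, 0))))
    (s (Sum.inl (Sum.inr (q, 1))))
  span : ∀ x : A, ∃ c : Bx V E D1 →₀ ZMod p, Ct (x - Finsupp.linearCombination (ZMod p) s c)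
  ind : ∀ c : Bx V E D1 →₀ ZMod p, Ct (Finsupp.linearCombination (ZMod p) s c) → c = 0

end uq

/-- the elements of loose configurations are in the span of the corresponding generators: the
index sets of the vertices and edges are finite -/
def S_loose : Prop := ∀ (p : ℕ) [Fact p.Prime], p ≠ 2 → ∀ (A : Type) [NonUnitalNonAssocRing A]
  [Module (ZMod p) A] (V : Type) (E : V → V → Prop) (D1 : Type) (ρ : V → A)
  (s : Bx V E D1 → A), Alt2 A → FAA p A → Rep p E ρ → (∀ v, s (Sum.inl (Sum.inl (v, 0))) = ρ v) →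
  (∀ v, TriA p (s (Sum.inl (Sum.inl (v, 0)))) (s (Sum.inl (Sum.inl (v, 1))))
    (s (Sum.inl (Sum.inl (v, 2))))) →
  (∀ q : {q : V × V // E q.1 q.2}, QdA p (s (Sum.inl (Sum.inl (q.1.1, 0))))
    (s (Sum.inl (Sum.inl (q.1.2, 0)))) (s (Sum.inl (Sum.inr (q, 0))))
    (s (Sum.inl (Sum.inr (q, 1))))) →
  ∀ (n m : ℕ) (v y z : Fin n → A) (v' w' a b : Fin m → A),
    (∀ i, TriA p (v i) (y i) (z i)) → (∀ k, QdA p (v' k) (w' k) (a k) (b k)) →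
    ∃ (P : Finset V) (Q : Finset {q : V × V // E q.1 q.2}),
      (∀ q ∈ Q, q.1.1 ∈ P ∧ q.1.2 ∈ P) ∧
      ∀ i, ∃ c : Bx V E D1 →₀ ZMod p,
        Ct (cf' v y z v' w' a b i - Finsupp.linearCombination (ZMod p) s c) ∧
        (∀ d, c (Sum.inr d) = 0) ∧ (∀ v j, v ∉ P → c (Sum.inl (Sum.inl (v, j))) = 0) ∧
        ∀ q j, q ∉ Q → c (Sum.inl (Sum.inr (q, j))) = 0

/-- there are no other relations (use `S_fac`, `S_loose`, `FfinA`, `FrelA`) -/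
def S_rel : Prop := ∀ (p : ℕ) [Fact p.Prime], p ≠ 2 → ∀ (A : Type) [NonUnitalNonAssocRing A]
  [Module (ZMod p) A] (V : Type) (E : V → V → Prop) (D1 : Type) (ρ : V → A)
  (s : Bx V E D1 → A), Alt2 A → FAA p A → Rep p E ρ → Gen p ρ s →
  ∀ M : (Bx V E D1 × Bx V E D1) →₀ ZMod p, AltF M → R0 M → bil p s M = 0 → M = 0

/-- the choice of the generators (use `FindA`, `S_loose`) -/
def S_gen : Prop := ∀ (p : ℕ) [Fact p.Prime], p ≠ 2 → ∀ (A : Type) [NonUnitalNonAssocRing A]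
  [Module (ZMod p) A] (V : Type) (E : V → V → Prop) (ρ : V → A), Alt2 A → FAA p A →
  Rep p E ρ → ∃ (D1 : Type) (s : Bx V E D1 → A), Gen p ρ s ∧ PreRel s ∧
    ∀ n, J1A p A n ↔ ∃ f : Fin n → D1, Function.Injective f

/-- the choice of the central generators -/
def S_cen : Prop := ∀ (p : ℕ) [Fact p.Prime], p ≠ 2 → ∀ (A : Type) [NonUnitalNonAssocRing A]
  [Module (ZMod p) A] (B : Type) (s : B → A), Alt2 A →
  (∀ x : A, ∃ c : B →₀ ZMod p, Ct (x - Finsupp.linearCombination (ZMod p) s c)) →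
  ∃ (D2 : Type) (z : D2 → A), (∀ d, Ct (z d)) ∧
    (∀ (c : D2 →₀ ZMod p) (M : (B × B) →₀ ZMod p),
      Finsupp.linearCombination (ZMod p) z c = bil p s M → c = 0) ∧
    (∀ x : A, Ct x → ∃ (c : D2 →₀ ZMod p) (M : (B × B) →₀ ZMod p),
      x = Finsupp.linearCombination (ZMod p) z c + bil p s M) ∧
    ∀ n, J2A p A n ↔ ∃ f : Fin n → D2, Function.Injective f

/-- algebras with the same presentation are isomorphic -/
def S_iso : Prop := ∀ (p : ℕ) [Fact p.Prime], p ≠ 2 → ∀ (A A' : Type) [NonUnitalNonAssocRing A]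
  [Module (ZMod p) A] [NonUnitalNonAssocRing A'] [Module (ZMod p) A'] (V : Type)
  (E : V → V → Prop) (D1 D2 : Type) (s : Bx V E D1 → A) (z : D2 → A) (s' : Bx V E D1 → A')
  (z' : D2 → A'), (∀ v w, E v w → ¬ E w v) → Alt2 A → Alt2 A' → Pres p s z → Pres p s' z' →
  AIso (ZMod p) A A'

/-! ### the standard algebra -/

section std

variable (p : ℕ) (Γ : ℕ → ℕ → Prop)

def T_ct : Prop := ∀ x : SA p Γ, Ct x ↔ x.1 = 0

/-- commuting pairs -/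
def T_co : Prop := ∀ x y : SA p Γ, x * y = 0 → IndA p ![x, y] →
  ∃ v : ℕ, (∀ b, (∀ i, b ≠ Sum.inl (v, i)) → x.1 b = 0 ∧ y.1 b = 0) ∧
    x.1 (Sum.inl (v, 1)) * y.1 (Sum.inl (v, 2)) = x.1 (Sum.inl (v, 2)) * y.1 (Sum.inl (v, 1))

/-- vertices -/
def T_tri : Prop := ∀ x y z : SA p Γ, TriA p x y z ↔ IndA p ![x, y, z] ∧
  ∃ v : ℕ, (∀ b, b ≠ Sum.inl (v, 0) → x.1 b = 0) ∧
    ∀ b, (∀ i, b ≠ Sum.inl (v, i)) → y.1 b = 0 ∧ z.1 b = 0

/-- edges -/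
def T_qd : Prop := ∀ x y a b : SA p Γ, QdA p x y a b ↔
  ∃ q : {q : ℕ × ℕ // Eo Γ q.1 q.2}, ∃ v w : ℕ,
    (∀ b, b ≠ Sum.inl (v, 0) → x.1 b = 0) ∧ x.1 (Sum.inl (v, 0)) ≠ 0 ∧
    (∀ b, b ≠ Sum.inl (w, 0) → y.1 b = 0) ∧ y.1 (Sum.inl (w, 0)) ≠ 0 ∧
    (∀ b', (∀ i, b' ≠ Sum.inr (q, i)) → a.1 b' = 0 ∧ b.1 b' = 0) ∧
    ((v = q.1.1 ∧ w = q.1.2 ∧ x.1 (Sum.inl (v, 0)) * y.1 (Sum.inl (w, 0)) =
        a.1 (Sum.inr (q, 0)) * b.1 (Sum.inr (q, 1)) -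
          a.1 (Sum.inr (q, 1)) * b.1 (Sum.inr (q, 0))) ∨
      (v = q.1.2 ∧ w = q.1.1 ∧ - (x.1 (Sum.inl (v, 0)) * y.1 (Sum.inl (w, 0))) =
        a.1 (Sum.inr (q, 0)) * b.1 (Sum.inr (q, 1)) -
          a.1 (Sum.inr (q, 1)) * b.1 (Sum.inr (q, 0))))

end std

def S_ct : Prop := ∀ (p : ℕ) [Fact p.Prime], p ≠ 2 → ∀ Γ : ℕ → ℕ → Prop, T_ct p Γ

def S_co : Prop := ∀ (p : ℕ) [Fact p.Prime], p ≠ 2 → ∀ Γ : ℕ → ℕ → Prop, T_ct p Γ → T_co p Γ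

def S_tri : Prop := ∀ (p : ℕ) [Fact p.Prime], p ≠ 2 → ∀ Γ : ℕ → ℕ → Prop, T_ct p Γ →
  T_co p Γ → T_tri p Γ

def S_qd : Prop := ∀ (p : ℕ) [Fact p.Prime], p ≠ 2 → ∀ Γ : ℕ → ℕ → Prop, T_ct p Γ →
  T_tri p Γ → T_qd p Γ

def S_easy : Prop := ∀ (p : ℕ) [Fact p.Prime], p ≠ 2 → ∀ Γ : ℕ → ℕ → Prop,
  (∀ v w, Γ v w → Γ w v) → (∀ v, ¬ Γ v v) → T_ct p Γ → T_tri p Γ → T_qd p Γ →
  FcenA p (SA p Γ) ∧ FwitA p (SA p Γ) ∧ FinfA p (SA p Γ) ∧
  (∀ v : ℕ, VtA p (sv v : SA p Γ)) ∧ (∀ v w : ℕ, v ≠ w → ¬ EvA p (sv v : SA p Γ) (sv w)) ∧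
  (∀ x : SA p Γ, VtA p x → ∃ v : ℕ, EvA p (sv v) x) ∧
  ∀ v w : ℕ, AjA p (sv v : SA p Γ) (sv w) ↔ Γ v w

def S_sind : Prop := ∀ (p : ℕ) [Fact p.Prime], p ≠ 2 → ∀ Γ : ℕ → ℕ → Prop, T_ct p Γ →
  T_tri p Γ → T_qd p Γ → FindA p (SA p Γ)

def S_srel : Prop := ∀ (p : ℕ) [Fact p.Prime], p ≠ 2 → ∀ Γ : ℕ → ℕ → Prop, T_ct p Γ →
  T_tri p Γ → T_qd p Γ → FrelA p (SA p Γ)

def S_sfin : Prop := ∀ (p : ℕ) [Fact p.Prime], p ≠ 2 → ∀ Γ : ℕ → ℕ → Prop, T_ct p Γ →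
  T_tri p Γ → T_qd p Γ → FfinA p (SA p Γ)

end Pool.Agent.H4.FV.Odd
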