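import Pool.Agent.H4.FV.OddT

set_option autoImplicit false
set_option linter.unusedVariables false
set_option linter.unusedSectionVars false

/-! Further statements (`p` is an odd prime). -/

namespace Pool.Agent.H4.FV.Odd

open Pool.Agent.R620.VA
open Pool.Agent.R620.GG

/-- being the same vertex is an equivalence relation on vertices, and a congruence -/
def S_eqv : Prop := ∀ (p : ℕ) [Fact p.Prime], p ≠ 2 → ∀ (A : Type) [NonUnitalNonAssocRing A]
  [Module (ZMod p) A], Alt2 A →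
  (∀ v : A, EvA p v v) ∧ (∀ v w : A, VtA p v → VtA p w → EvA p v w → EvA p w v) ∧
  (∀ u v w : A, VtA p u → VtA p v → VtA p w → EvA p u v → EvA p v w → EvA p u w) ∧
  (∀ v w v' w' : A, VtA p v → VtA p w → VtA p v' → VtA p w' → EvA p v v' → EvA p w w' →
    AjA p v w → AjA p v' w') ∧
  (∀ v w : A, AjA p v w → AjA p w v) ∧ ∀ v w : A, AjA p v w → ¬ EvA p v w

/-- change of the index types of a presentation -/
def S_pmap : Prop := ∀ (p : ℕ) [Fact p.Prime] (A : Type) [NonUnitalNonAssocRing A]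
  [Module (ZMod p) A] (V : Type) (E : V → V → Prop) (D1 D2 D1' D2' : Type)
  (s : Bx V E D1 → A) (z : D2 → A) (e1 : D1' ≃ D1) (e2 : D2' ≃ D2), Pres p s z →
  Pres p (E := E) (D1 := D1') (fun b => s (Sum.map id e1 b)) (fun d => z (e2 d))

/-- countable sets with the same finite sizes of subsets -/
def S_card : Prop := ∀ (D D' : Type) [Countable D] [Countable D'],
  (∀ n : ℕ, (∃ f : Fin n → D, Function.Injective f) ↔ ∃ f : Fin n → D', Function.Injective f) →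
  Nonempty (D ≃ D')

/-- the group on `ℕ` of the standard algebra: transport `GA p (SA p Γ) alt2_SA` to `ℕ` (`SA p Γ` is
countable and infinite); its algebra is isomorphic to `SA p Γ` by `aiso_LG` and `aiso_GA` -/
def S_ex : Prop := ∀ (p : ℕ) [Fact p.Prime], p ≠ 2 → ∀ Γ : ℕ → ℕ → Prop,
  FAA p (SA p Γ) → (∀ v : ℕ, VtA p (sv v : SA p Γ)) →
  (∀ v w : ℕ, v ≠ w → ¬ EvA p (sv v : SA p Γ) (sv w)) →
  (∀ x : SA p Γ, VtA p x → ∃ v : ℕ, EvA p (sv v) x) →
  (∀ v w : ℕ, AjA p (sv v : SA p Γ) (sv w) ↔ Γ v w) →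
  ∃ μ : ℕ → ℕ → ℕ, FA p μ ∧ ∃ π : ℕ → ℕ, (∀ v, Vt p μ (π v)) ∧
    (∀ v w, Ev p μ (π v) (π w) ↔ v = w) ∧ (∀ x, Vt p μ x → ∃ v, Ev p μ (π v) x) ∧
    ∀ u v, Aj p μ (π u) (π v) ↔ Γ u v

end Pool.Agent.H4.FV.Odd
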