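import Pool.Agent.H383.FV.R
import Pool.Agent.H134.FV.I
import Pool.Agent.H353.FV.C
import Pool.Agent.H227.FV.P
import Pool.Agent.H154.FV.S
import Pool.Agent.H588.FV.Flip
import Pool.Agent.H225.FV.Good
import Pool.Agent.H97.FV.N
import Pool.Agent.H947.FV.Rect
import Pool.Graph.R_pool_sql_team_seeded_63374d34.N649.SV.Main
import Pool.Graph.R_pool_sql_team_seeded_63374d34.N649.SN.Fin

set_option autoImplicit false

/-! Varieties of semigroups: the dichotomy for first-order theories. -/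

namespace Pool.Agent.H4.FV

open FirstOrder FirstOrder.Language
open Pool.Agent.W889.FO
open Pool.Agent.TH686.FO
open Pool.Agent.H4.VG
open Pool.Agent.N649
open Pool.Agent.N649.SV
open Pool.Agent.N649.SG.Light
open Pool.Agent.W889.VC (VCof)

theorem red_variety (E : Set (T × T)) :
    Red (Vr E) ∨
    (∀ (M : Type) (o : M → M → M), SG o → Sa E o → LU o) ∨
    (∀ (M : Type) (o : M → M → M), SG o → Sa E o → RU o) ∨
    (∀ (M : Type) (o : M → M → M), SG o → Sa E o → RectGp o) := by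
  rcases SG.Cls.classify E with h | h | h | h | ⟨h1, h2, h3⟩ | ⟨p, hp, h1, h2⟩ | ⟨p, hp, h⟩ | h
  · exact Or.inl (Red.mono H154.FVS.leaf_S fun o ho => ⟨ho.1, leaf_id.2.1 E h ℕ o ho⟩)
  · exact Or.inl (Red.mono H97.FV.leaf_N fun o ho => ⟨kn_sg ho, leaf_id.1 E h ℕ o ho⟩)
  · exact Or.inl (Red.mono H227.FV.leaf_P fun o ho =>
      ⟨kp_sg ho, Pool.Agent.N649.SG.D.leaf_A0 E h ℕ o ho.1 ho.2⟩)
  · refine Or.inl (Red.mono (H588.FV.Flip.leaf_flip _ H227.FV.leaf_P) fun o ho => ⟨fun x y z => ?_, ?_⟩)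
    · exact (kp_sg ho z y x).symm
    · exact sa_rev.1 (Pool.Agent.N649.SG.D.leaf_A0 _ (sa_rev.2 h) ℕ (fun x y => o y x) ho.1 ho.2)
  · exact Or.inl (Red.mono H383.FV.R.leaf_R fun o ho =>
      ⟨kr_sg ho, Pool.Agent.N649.SG.D.leaf_B0 E h1 h2 h3 ℕ o ho.1 ho.2⟩)
  · exact Or.inl (Red.mono (H134.FV.leaf_I p hp) fun o ho =>
      ⟨ki_sg ho, leaf_id.2.2 E p hp h1 h2 ℕ o ho⟩)
  · refine Or.inl (Red.mono (H353.FV.leaf_C p hp) fun o ho => ⟨kc_sg ho, ?_⟩)
    obtain ⟨I, K, P, f, hf⟩ := ho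
    exact sa_inj f f.injective hf (Pool.Agent.N649.SG.D.leaf_D p E h I K P)
  · exact Or.inr h

/-- the full conjecture -/
def Full : Prop := ∀ L : FirstOrder.Language.{0, 0}, Countable L.Symbols → ∀ T : L.Theory,
  VaughtF L T

theorem full_of {K : (ℕ → ℕ → ℕ) → Prop} (h : Red K) (hK : FV K) : Full :=
  fun L hL T => all_of_LG (h fun T _ hM => hK T hM) L hL T

theorem FV.mono {K K' : (ℕ → ℕ → ℕ) → Prop} (h : FV K) (hK : ∀ μ, K' μ → K μ) : FV K' :=
  fun T hT => h T fun M hM => hK _ (hT M hM)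

theorem of_full {K : (ℕ → ℕ → ℕ) → Prop} (h : Full) : FV K := fun T _ => h LM inferInstance T

theorem good_unary {E : Set (T × T)}
    (h : (∀ (M : Type) (o : M → M → M), SG o → Sa E o → LU o) ∨
      ∀ (M : Type) (o : M → M → M), SG o → Sa E o → RU o) : FV (Vr E) := by
  rcases h with h | h
  · exact FV.mono (H225.FV.leaf_good _ leaf_U.1) fun μ hμ => ⟨hμ.1, h ℕ μ hμ.1 hμ.2⟩
  · exact FV.mono (H225.FV.leaf_good _ leaf_U.2) fun μ hμ => ⟨hμ.1, h ℕ μ hμ.1 hμ.2⟩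

theorem good_abelian {E : Set (T × T)} (hr : ∀ (M : Type) (o : M → M → M), SG o → Sa E o →
    RectGp o) (ha : ∀ (M : Type) (o : M → M → M), Grp o → Sa E o → ∀ x y : M, o x y = o y x) :
    FV (fun o => Grp o ∧ Sa E o) := by
  refine H225.FV.leaf_good (fun o => Grp o ∧ Sa E o) (fun B _ _ h3 => Or.inl ?_)
  have hnot : ¬ Sa E (fun x y : ℕ+ => x + y) := by
    intro h
    obtain ⟨x, hx⟩ := (hr ℕ+ (fun x y => x + y) (fun x y z => add_assoc x y z) h).2.1 1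
    have := congrArg PNat.val hx
    simp only [PNat.add_coe] at this
    have h5 := x.pos
    have h6 : ((1 : ℕ+) : ℕ) = 1 := rfl
    omega
  obtain ⟨f, hf⟩ := N649.SN.ab_list_fin hnot
  refine ⟨f, fun x hx => ?_⟩
  obtain ⟨n, hn⟩ := hf x (h3 x hx).1 (h3 x hx).2 (ha ℕ x (h3 x hx).1 (h3 x hx).2)
  exact ⟨n, hn⟩

end Pool.Agent.H4.FV
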