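import Pool.Agent.H4.FV.Stm

set_option autoImplicit false
set_option linter.unusedVariables false

/-! Further statements. -/

namespace Pool.Agent.H4.FV

open FirstOrder FirstOrder.Language
open Pool.Agent.W889.FO
open Pool.Agent.TH686.FO
open Pool.Agent.H4.VG
open Pool.Agent.N649.SV
open Pool.Agent.N649.SG.Light
open scoped commutatorElement

/-- Vaught's conjecture for the theories whose models on `ℕ` are operations in `K` -/
def FV (K : (ℕ → ℕ → ℕ) → Prop) : Prop :=
  ∀ T : LM.Theory, (∀ M : LM.Structure ℕ, @Theory.Model LM ℕ M T → K (op M)) → VaughtF LM T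

/-- rectangular groups: from groups to rectangular groups.

Proof. A rectangular group `S` is isomorphic to `G × L × R` with a group `G` and sets `L`, `R`, with
the product `(g, l, r) (g', l', r') = (g g', l, r')` (see `N649/SV/G.lean` for the decomposition),
`G` in the variety. For fixed `L`, `R` (`Fin n` or `ℕ`) and a formula `φ` with `n` free variables and
partitions of the variables there is a formula `φ'` such that for all groups `G` and all
assignments in which the components in `L` (in `R`) coincide exactly according to the partition:
`G × L × R ⊨ φ` iff `G ⊨ φ'` at the components in `G` (induction on `φ`; a new variable is in an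
old class or in a new one, if there is one). So the groups `G` on `ℕ` with `G × L × R ⊨ T` are the
models of a theory of groups in the variety. If one of these theories (countably many pairs `L`,
`R`) has perfectly many models, then so has `T`; otherwise `T` has countably many (those with
infinite `G`, and those with finite `G`, which are countably many anyway). -/
def S_rect : Prop := ∀ E : Set (T × T), FV (fun o => Grp o ∧ Sa E o) →
  FV (fun o => RectGp o ∧ Sa E o)

/-- nonabelian nilpotent groups: the two cases.

Proof. `Pool/Graph/R_seed8/R620/GG/Nil.lean`, `exists_central`: there is a central commutator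
`c = ⁅a, b⁆ ≠ 1`. If it has infinite order (take `p = 3`) or its order has an odd prime divisor `p`,
the first case holds. Otherwise its order is `2 ^ (k + 1)`; replace `a` by `a ^ (2 ^ k)`, so that `c`
has order two. If `a` or `b` has infinite order or order divisible by four take it as `z`.
Otherwise replace `a`, `b` by odd powers of order one or two (`c` does not change); then `a b` has
order four (its square is `c` or `c⁻¹`): `z = a b`. -/
def S_nil : Prop := ∀ (G : Type) [Group G], Group.IsNilpotent G → (∃ a b : G, a * b ≠ b * a) →
  (∃ p : ℕ, p.Prime ∧ p ≠ 2 ∧ ∃ a b : G, (∀ z : G, ⁅a, b⁆ * z = z * ⁅a, b⁆) ∧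
    ∀ n : ℤ, ⁅a, b⁆ ^ n = 1 → (p : ℤ) ∣ n) ∨
  (∃ x y z c : G, c = x⁻¹ * y⁻¹ * x * y ∧ x * c = c * x ∧ y * c = c * y ∧
    (∀ n : ℕ, c ^ n = 1 → 2 ∣ n) ∧ ∀ n : ℕ, z ^ n = 1 → 4 ∣ n)

end Pool.Agent.H4.FV
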